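import Pool.Agent.Helper53.BM.Hessian

set_option autoImplicit false

open Filter Topology

namespace Pool.Agent.Helper53.BM

universe u

section
variable {E : Type*} [NormedAddCommGroup E] [NormedSpace ℝ E]

/-- Sum of the two expansions in opposite directions: for every unit vector `w` there is a unit
vector `z` such that the second difference of the squared norm at `x` in the direction `z` is
governed by `g w w`. -/
lemma second_difference {f : E →L[ℝ] ℝ} {g : E →L[ℝ] E →L[ℝ] ℝ} (hT : UniformTaylor f g)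
    {ε : ℝ} (hε : 0 < ε) : ∃ δ : ℝ, 0 < δ ∧ ∀ x : E, ‖x‖ = 1 → ∀ w : E, ‖w‖ = 1 →
      ∃ z : E, ‖z‖ = 1 ∧ |‖x + δ • z‖ ^ 2 + ‖x - δ • z‖ ^ 2 - 2 - 2 * δ ^ 2 * g w w| ≤
        4 * (ε * δ ^ 2) := by
  obtain ⟨δ, hδ0, hδ⟩ := hT ε hε
  refine ⟨δ, hδ0, fun x hx w hw => ?_⟩
  have hx0 : x ≠ 0 := by
    intro h
    rw [h, norm_zero] at hx
    exact zero_ne_one hx
  obtain ⟨U, hU⟩ := hδ x hx0 (ε * δ ^ 2) (by positivity)
  set z : E := U.symm w with hz
  have hz1 : ‖z‖ = 1 := by rw [hz, LinearIsometryEquiv.norm_map, hw]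
  have hUz : U z = w := by rw [hz, LinearIsometryEquiv.apply_symm_apply]
  refine ⟨z, hz1, ?_⟩
  have hn : ‖δ • z‖ = δ := by rw [norm_smul, hz1, mul_one, Real.norm_eq_abs, abs_of_pos hδ0]
  have ha := hU (δ • z) (by rw [hn, hx, mul_one])
  have hb := hU (-(δ • z)) (by rw [norm_neg, hn, hx, mul_one])
  rw [hx, hn] at ha
  rw [hx, norm_neg, hn, ← sub_eq_add_neg] at hb
  simp only [map_neg, map_smul, smul_apply, neg_apply, smul_eq_mul, hUz, one_pow, one_mul] at ha hb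
  have e : δ * (δ * g w w) = δ ^ 2 * g w w := by ring
  have e' : -(δ * -(δ * g w w)) = δ ^ 2 * g w w := by ring
  rw [e] at ha
  rw [e'] at hb
  rw [abs_le] at ha hb ⊢
  constructor <;> linarith [ha.1, ha.2, hb.1, hb.2]

variable {H : Type*} [NormedAddCommGroup H] [InnerProductSpace ℝ H]

lemma par_law (T : E ≃L[ℝ] H) (x z : E) (δ : ℝ) :
    ‖T (x + δ • z)‖ ^ 2 + ‖T (x - δ • z)‖ ^ 2 = 2 * ‖T x‖ ^ 2 + 2 * δ ^ 2 * ‖T z‖ ^ 2 := by
  have h := parallelogram_law_with_norm ℝ (T x) (δ • T z)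
  rw [map_add, map_sub, map_smul, h, norm_smul, Real.norm_eq_abs, mul_pow, sq_abs]
  ring

/-- Homogeneity: from unit vectors to all vectors. -/
lemma le_of_unit {a b : E → ℝ} (ha : ∀ (c : ℝ) v, a (c • v) = c ^ 2 * a v)
    (hb : ∀ (c : ℝ) v, b (c • v) = c ^ 2 * b v) (h : ∀ v, ‖v‖ = 1 → a v ≤ b v) (v : E) :
    a v ≤ b v := by
  rcases eq_or_ne v 0 with hv | hv
  · subst hv
    have h1 : a 0 = 0 := by simpa using ha 0 0
    have h2 : b 0 = 0 := by simpa using hb 0 0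
    rw [h1, h2]
  · have hvn : 0 < ‖v‖ := norm_pos_iff.mpr hv
    have h1 := h (‖v‖⁻¹ • v) (by rw [norm_smul, norm_inv, norm_norm, inv_mul_cancel₀ hvn.ne'])
    rw [ha, hb] at h1
    exact le_of_mul_le_mul_left h1 (by positivity)

/-- At an approximate contact point of the norm with a Hilbert norm from below. -/
lemma contact_upper {f : E →L[ℝ] ℝ} {g : E →L[ℝ] E →L[ℝ] ℝ} (hT : UniformTaylor f g)
    (T : E ≃L[ℝ] H) {K : ℝ} (hT1 : ∀ x, ‖x‖ ^ 2 ≤ ‖T x‖ ^ 2)
    (hT2 : ∀ x, ‖T x‖ ^ 2 ≤ K * ‖x‖ ^ 2) (w : E) : g w w ≤ K * ‖w‖ ^ 2 := by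
  refine le_of_unit (a := fun v => g v v) (b := fun v => K * ‖v‖ ^ 2) (fun c v => ?_)
    (fun c v => ?_) (fun w hw => ?_) w
  · simp only [map_smul, smul_apply, smul_eq_mul]
    ring
  · simp only [norm_smul, Real.norm_eq_abs, mul_pow, sq_abs]
    ring
  · simp only [hw, one_pow, mul_one]
    refine le_of_forall_pos_le_add fun ε' hε' => ?_
    set ε : ℝ := ε' / 3 with hεdef
    have hε : 0 < ε := by positivity
    obtain ⟨δ, hδ0, hδ⟩ := second_difference hT hε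
    set S : Set ℝ := {r | ∃ x : E, ‖x‖ = 1 ∧ r = ‖T x‖ ^ 2} with hS
    have hSne : S.Nonempty := ⟨_, w, hw, rfl⟩
    have hSbd : BddBelow S := ⟨0, by rintro r ⟨x, -, rfl⟩; positivity⟩
    set m : ℝ := sInf S with hm
    have hm1 : 1 ≤ m := by
      refine le_csInf hSne ?_
      rintro r ⟨x, hx, rfl⟩
      have := hT1 x
      rwa [hx, one_pow] at this
    have hmT : ∀ v : E, m * ‖v‖ ^ 2 ≤ ‖T v‖ ^ 2 := by
      refine le_of_unit (fun c v => ?_) (fun c v => ?_) (fun v hv => ?_)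
      · simp only [norm_smul, Real.norm_eq_abs, mul_pow, sq_abs]
        ring
      · simp only [map_smul, norm_smul, Real.norm_eq_abs, mul_pow, sq_abs]
      · rw [hv, one_pow, mul_one]
        exact csInf_le hSbd ⟨v, hv, rfl⟩
    obtain ⟨_, ⟨x, hx, rfl⟩, hxm⟩ := exists_lt_of_csInf_lt hSne
      (show sInf S < m + ε * δ ^ 2 by rw [← hm]; linarith [show 0 < ε * δ ^ 2 by positivity])
    obtain ⟨z, hz, hzd⟩ := hδ x hx w hw
    have h1 := hmT (x + δ • z)
    have h2 := hmT (x - δ • z)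
    have h3 := par_law T x z δ
    have h4 : ‖T z‖ ^ 2 ≤ K := by
      have := hT2 z
      rwa [hz, one_pow, mul_one] at this
    have h5 := (abs_le.mp hzd).1
    have h6 : m * (2 + 2 * δ ^ 2 * g w w - 4 * (ε * δ ^ 2)) ≤
        m * (‖x + δ • z‖ ^ 2 + ‖x - δ • z‖ ^ 2) := by
      gcongr
      linarith
    have hδ2 : 0 < δ ^ 2 := by positivity
    have h7 : 2 * δ ^ 2 * ‖T z‖ ^ 2 ≤ 2 * δ ^ 2 * K := by gcongr
    have h8 : δ ^ 2 * (m * (g w w - 2 * ε)) ≤ δ ^ 2 * (ε + K) := by nlinarith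
    have h9 : m * (g w w - 2 * ε) ≤ ε + K := le_of_mul_le_mul_left h8 hδ2
    have hK : 0 ≤ K := by
      have := hT1 w
      have h10 := hT2 w
      rw [hw, one_pow] at this h10
      linarith
    rcases le_or_gt (g w w - 2 * ε) 0 with h | h
    · linarith
    · have : 1 * (g w w - 2 * ε) ≤ m * (g w w - 2 * ε) := by gcongr
      linarith

/-- At an approximate contact point of the norm with a Hilbert norm from above. -/
lemma contact_lower {f : E →L[ℝ] ℝ} {g : E →L[ℝ] E →L[ℝ] ℝ} (hT : UniformTaylor f g)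
    (T : E ≃L[ℝ] H) {K : ℝ} (hT1 : ∀ x, ‖x‖ ^ 2 ≤ ‖T x‖ ^ 2)
    (hT2 : ∀ x, ‖T x‖ ^ 2 ≤ K * ‖x‖ ^ 2) (w : E) : ‖w‖ ^ 2 ≤ K * g w w := by
  refine le_of_unit (a := fun v => ‖v‖ ^ 2) (b := fun v => K * g v v) (fun c v => ?_)
    (fun c v => ?_) (fun w hw => ?_) w
  · simp only [norm_smul, Real.norm_eq_abs, mul_pow, sq_abs]
  · simp only [map_smul, smul_apply, smul_eq_mul]
    ring
  · simp only [hw, one_pow]
    have hK1 : 1 ≤ K := by
      have := hT1 w
      have h10 := hT2 w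
      rw [hw, one_pow] at this h10
      linarith
    refine le_of_forall_pos_le_add fun ε' hε' => ?_
    set ε : ℝ := min (1 / 2) (ε' / (1 + 2 * K)) with hεdef
    have hε : 0 < ε := lt_min (by norm_num) (by positivity)
    have hε2 : ε ≤ 1 / 2 := min_le_left _ _
    have hε3 : ε + 2 * K * ε ≤ ε' := by
      have : ε ≤ ε' / (1 + 2 * K) := min_le_right _ _
      rw [le_div_iff₀ (by positivity)] at this
      linarith
    obtain ⟨δ, hδ0, hδ⟩ := second_difference hT hε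
    set S : Set ℝ := {r | ∃ x : E, ‖x‖ = 1 ∧ r = ‖T x‖ ^ 2} with hS
    have hSne : S.Nonempty := ⟨_, w, hw, rfl⟩
    have hSK : ∀ r ∈ S, r ≤ K := by
      rintro r ⟨x, hx, rfl⟩
      have := hT2 x
      rwa [hx, one_pow, mul_one] at this
    have hSbd : BddAbove S := ⟨K, hSK⟩
    set m : ℝ := sSup S with hm
    have hmK : m ≤ K := csSup_le hSne hSK
    have hm0 : 0 < m := by
      have h1 : ‖T w‖ ^ 2 ≤ m := le_csSup hSbd ⟨w, hw, rfl⟩
      have h2 := hT1 w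
      rw [hw, one_pow] at h2
      linarith
    have hmT : ∀ v : E, ‖T v‖ ^ 2 ≤ m * ‖v‖ ^ 2 := by
      refine le_of_unit (fun c v => ?_) (fun c v => ?_) (fun v hv => ?_)
      · simp only [map_smul, norm_smul, Real.norm_eq_abs, mul_pow, sq_abs]
      · simp only [norm_smul, Real.norm_eq_abs, mul_pow, sq_abs]
        ring
      · rw [hv, one_pow, mul_one]
        exact le_csSup hSbd ⟨v, hv, rfl⟩
    obtain ⟨_, ⟨x, hx, rfl⟩, hxm⟩ := exists_lt_of_lt_csSup hSne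
      (show m - ε * δ ^ 2 < sSup S by rw [← hm]; linarith [show 0 < ε * δ ^ 2 by positivity])
    obtain ⟨z, hz, hzd⟩ := hδ x hx w hw
    have h1 := hmT (x + δ • z)
    have h2 := hmT (x - δ • z)
    have h3 := par_law T x z δ
    have h4 : 1 ≤ ‖T z‖ ^ 2 := by
      have := hT1 z
      rwa [hz, one_pow] at this
    have h5 := (abs_le.mp hzd).2
    have h6 : m * (‖x + δ • z‖ ^ 2 + ‖x - δ • z‖ ^ 2) ≤
        m * (2 + 2 * δ ^ 2 * g w w + 4 * (ε * δ ^ 2)) :=
      mul_le_mul_of_nonneg_left (by linarith) hm0.le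
    have hδ2 : 0 < δ ^ 2 := by positivity
    have h7 : 2 * δ ^ 2 * 1 ≤ 2 * δ ^ 2 * ‖T z‖ ^ 2 := by gcongr
    have h8 : δ ^ 2 * (1 - ε) ≤ δ ^ 2 * (m * (g w w + 2 * ε)) := by nlinarith
    have h9 : 1 - ε ≤ m * (g w w + 2 * ε) := le_of_mul_le_mul_left h8 hδ2
    have h10 : 0 < g w w + 2 * ε := by
      by_contra hcon
      push Not at hcon
      have := mul_nonpos_of_nonneg_of_nonpos hm0.le hcon
      linarith
    have h11 : m * (g w w + 2 * ε) ≤ K * (g w w + 2 * ε) := by gcongr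
    linarith

end

end Pool.Agent.Helper53.BM
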