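import Pool.Agent.Helper53.BM.Flow

set_option autoImplicit false

open Filter Topology Asymptotics

namespace Pool.Agent.Helper53.BM

variable {E : Type*} [NormedAddCommGroup E] [NormedSpace ℝ E]

/-- Pull back a functional along an isometry. -/
noncomputable def pull (U : E ≃ₗᵢ[ℝ] E) (φ : StrongDual ℝ E) : StrongDual ℝ E :=
  φ.comp (U.toContinuousLinearEquiv : E →L[ℝ] E)

@[simp] lemma pull_apply (U : E ≃ₗᵢ[ℝ] E) (φ : StrongDual ℝ E) (w : E) :
    pull U φ w = φ (U w) := rfl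

/-- **Optimal control along weakly null directions.** With `σ = 1` the vector `ω` makes the norm
of `p₀ + ω` grow as fast as possible, with `σ = -1` as slow as possible. -/
lemma control {f : E →L[ℝ] ℝ} {g : E →L[ℝ] E →L[ℝ] ℝ} (hT : UniformTaylor f g)
    (σ : ℝ) (hσ : |σ| = 1) {μ : ℝ}
    (hμ1 : ∀ η : ℝ, 0 < η → ∃ Φ : Finset (StrongDual ℝ E), ∀ w : E,
        (∀ φ ∈ Φ, φ w = 0) → σ * g w w ≤ (μ + η) * ‖w‖ ^ 2)
    (hμ2 : ∀ η : ℝ, 0 < η → ∀ Ψ : Finset (StrongDual ℝ E), ∃ w : E, ‖w‖ = 1 ∧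
        (∀ φ ∈ Ψ, φ w = 0) ∧ μ - η ≤ σ * g w w)
    (P : Finset E) (hP : ∀ p ∈ P, p ≠ 0) {p₀ : E} (hp₀ : p₀ ∈ P) {R ε' : ℝ} (hR : 0 < R)
    (hε' : 0 < ε') :
    ∃ ω : E, (∀ p ∈ P, ‖p‖ ≤ ‖p + ω‖) ∧
      (∀ p ∈ P, σ * (‖p + ω‖ ^ 2 - ‖p‖ ^ 2) ≤ R ^ 2 * μ + ε') ∧
      R ^ 2 * μ - ε' ≤ σ * (‖p₀ + ω‖ ^ 2 - ‖p₀‖ ^ 2) := by
  classical
  set η : ℝ := ε' / (2 * R ^ 2) with hη
  have hη0 : 0 < η := by positivity
  obtain ⟨δ, hδ0, hδ⟩ := hT (η / 2) (by positivity)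
  obtain ⟨Φ₀, hΦ₀⟩ := hμ1 η hη0
  -- a positive lower bound for the norms
  obtain ⟨p₁, hp₁, hp₁'⟩ := Finset.exists_min_image P (fun p => ‖p‖) ⟨p₀, hp₀⟩
  have hm₀ : 0 < ‖p₁‖ := norm_pos_iff.mpr (hP p₁ hp₁)
  -- the number of steps
  obtain ⟨n, hn⟩ := exists_nat_gt (R ^ 2 / (δ * ‖p₁‖) ^ 2)
  have hn0 : (0 : ℝ) < n := lt_of_le_of_lt (by positivity) hn
  set s : ℝ := R / Real.sqrt n with hs
  have hs0 : 0 < s := by positivity
  have hs2 : n * s ^ 2 = R ^ 2 := by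
    rw [hs, div_pow, Real.sq_sqrt hn0.le]
    field_simp
  have hsδ : s ≤ δ * ‖p₁‖ := by
    have h1 : s ^ 2 ≤ (δ * ‖p₁‖) ^ 2 := by
      rw [div_lt_iff₀ (by positivity)] at hn
      have h2 : n * s ^ 2 ≤ n * (δ * ‖p₁‖) ^ 2 := by rw [hs2]; exact hn.le
      exact le_of_mul_le_mul_left h2 hn0
    exact le_of_sq_le_sq h1 (by positivity)
  have step : ∀ k : ℕ, ∃ ω : E, (∀ p ∈ P, ‖p‖ ≤ ‖p + ω‖) ∧
      (∀ p ∈ P, σ * (‖p + ω‖ ^ 2 - ‖p‖ ^ 2) ≤ k * s ^ 2 * (μ + 2 * η)) ∧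
      k * s ^ 2 * (μ - 2 * η) ≤ σ * (‖p₀ + ω‖ ^ 2 - ‖p₀‖ ^ 2) := by
    intro k
    induction k with
    | zero => exact ⟨0, by simp, by simp, by simp⟩
    | succ k ih =>
      obtain ⟨ω, h1, h2, h3⟩ := ih
      have hne : ∀ p ∈ P, p + ω ≠ 0 := by
        intro p hp h0
        have := h1 p hp
        rw [h0, norm_zero] at this
        exact hP p hp (norm_le_zero_iff.mp this)
      have hU : ∀ p : E, ∃ U : E ≃ₗᵢ[ℝ] E, p ∈ P → ∀ h : E, ‖h‖ ≤ δ * ‖p + ω‖ →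
          |‖p + ω + h‖ ^ 2 - ‖p + ω‖ ^ 2 - 2 * (‖p + ω‖ * f (U h)) - g (U h) (U h)| ≤
            η / 2 * ‖h‖ ^ 2 + s ^ 2 * (η / 2) := by
        intro p
        by_cases hp : p ∈ P
        · obtain ⟨U, hU⟩ := hδ (p + ω) (hne p hp) (s ^ 2 * (η / 2)) (by positivity)
          exact ⟨U, fun _ => hU⟩
        · exact ⟨LinearIsometryEquiv.refl ℝ E, fun h => absurd h hp⟩
      choose U hU using hU
      choose J hJ1 hJ2 using fun p : E => exists_dual_vector'' ℝ (p + ω)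
      set Ψ : Finset (StrongDual ℝ E) := P.image J ∪ P.image (fun p => pull (U p) f) ∪
        P.biUnion fun p => Φ₀.image (pull (U p)) with hΨ
      obtain ⟨w', hw'1, hw'2, hw'3⟩ := hμ2 η hη0 (Ψ.image (pull (U p₀).symm))
      set w : E := (U p₀).symm w' with hw
      have hw1 : ‖w‖ = 1 := by rw [hw, LinearIsometryEquiv.norm_map, hw'1]
      have hUw : U p₀ w = w' := by rw [hw, LinearIsometryEquiv.apply_symm_apply]
      have hw2 : ∀ φ ∈ Ψ, φ w = 0 := by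
        intro φ hφ
        have := hw'2 _ (Finset.mem_image_of_mem _ hφ)
        rwa [pull_apply] at this
      have hwJ : ∀ p ∈ P, J p w = 0 := fun p hp => hw2 _ (by
        rw [hΨ]
        exact Finset.mem_union_left _ (Finset.mem_union_left _ (Finset.mem_image_of_mem _ hp)))
      have hwf : ∀ p ∈ P, f (U p w) = 0 := fun p hp => by
        have := hw2 (pull (U p) f) (by
          rw [hΨ]
          exact Finset.mem_union_left _ (Finset.mem_union_right _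
            (Finset.mem_image_of_mem (fun p => pull (U p) f) hp)))
        rwa [pull_apply] at this
      have hwΦ : ∀ p ∈ P, ∀ φ ∈ Φ₀, φ (U p w) = 0 := fun p hp φ hφ => by
        have := hw2 (pull (U p) φ) (by
          rw [hΨ]
          refine Finset.mem_union_right _ (Finset.mem_biUnion.mpr ⟨p, hp, ?_⟩)
          exact Finset.mem_image_of_mem _ hφ)
        rwa [pull_apply] at this
      have hadd : ∀ p : E, p + (ω + s • w) = p + ω + s • w := fun p => by abel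
      have hsw : ‖s • w‖ = s := by rw [norm_smul, hw1, mul_one, Real.norm_eq_abs, abs_of_pos hs0]
      have hTp : ∀ p ∈ P, |‖p + ω + s • w‖ ^ 2 - ‖p + ω‖ ^ 2 - s ^ 2 * g (U p w) (U p w)| ≤
          s ^ 2 * η := by
        intro p hp
        have h4 := hU p hp (s • w) (by
          rw [hsw]
          calc s ≤ δ * ‖p₁‖ := hsδ
            _ ≤ δ * ‖p + ω‖ := by gcongr; exact (hp₁' p hp).trans (h1 p hp))
        rw [hsw] at h4
        simp only [map_smul, smul_apply, smul_eq_mul, hwf p hp, mul_zero, sub_zero] at h4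
        have e : s * (s * g (U p w) (U p w)) = s ^ 2 * g (U p w) (U p w) := by ring
        rw [e] at h4
        linarith
      have hσT : ∀ p ∈ P, |σ * (‖p + ω + s • w‖ ^ 2 - ‖p + ω‖ ^ 2) -
          s ^ 2 * (σ * g (U p w) (U p w))| ≤ s ^ 2 * η := by
        intro p hp
        have e : σ * (‖p + ω + s • w‖ ^ 2 - ‖p + ω‖ ^ 2) - s ^ 2 * (σ * g (U p w) (U p w)) =
          σ * (‖p + ω + s • w‖ ^ 2 - ‖p + ω‖ ^ 2 - s ^ 2 * g (U p w) (U p w)) := by ring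
        rw [e, abs_mul, hσ, one_mul]
        exact hTp p hp
      refine ⟨ω + s • w, fun p hp => ?_, fun p hp => ?_, ?_⟩
      · rw [hadd]
        have h5 : ‖p + ω‖ ≤ ‖p + ω + s • w‖ := by
          calc ‖p + ω‖ = J p (p + ω + s • w) := by
                rw [map_add, map_smul, hwJ p hp, smul_zero, add_zero, hJ2]
                rfl
            _ ≤ ‖J p‖ * ‖p + ω + s • w‖ :=
                (le_abs_self _).trans (by simpa using (J p).le_opNorm (p + ω + s • w))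
            _ ≤ 1 * ‖p + ω + s • w‖ := by gcongr; exact hJ1 p
            _ = _ := one_mul _
        exact (h1 p hp).trans h5
      · rw [hadd]
        have h6 := h2 p hp
        have h7 := (abs_le.mp (hσT p hp)).2
        have h8 : σ * g (U p w) (U p w) ≤ (μ + η) * ‖U p w‖ ^ 2 := hΦ₀ _ (hwΦ p hp)
        rw [(U p).norm_map, hw1, one_pow, mul_one] at h8
        have h9 : s ^ 2 * (σ * g (U p w) (U p w)) ≤ s ^ 2 * (μ + η) := by gcongr
        have e : σ * (‖p + ω + s • w‖ ^ 2 - ‖p‖ ^ 2) =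
          σ * (‖p + ω + s • w‖ ^ 2 - ‖p + ω‖ ^ 2) + σ * (‖p + ω‖ ^ 2 - ‖p‖ ^ 2) := by ring
        rw [e]
        push_cast
        linarith
      · rw [hadd]
        have h7 := (abs_le.mp (hσT p₀ hp₀)).1
        rw [hUw] at h7
        have h9 : s ^ 2 * (μ - η) ≤ s ^ 2 * (σ * g w' w') := by gcongr
        have e : σ * (‖p₀ + ω + s • w‖ ^ 2 - ‖p₀‖ ^ 2) =
          σ * (‖p₀ + ω + s • w‖ ^ 2 - ‖p₀ + ω‖ ^ 2) + σ * (‖p₀ + ω‖ ^ 2 - ‖p₀‖ ^ 2) := by ring
        rw [e]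
        push_cast
        linarith
  obtain ⟨ω, h1, h2, h3⟩ := step n
  have e2 : 2 * η * R ^ 2 = ε' := by rw [hη]; field_simp
  rw [hs2] at h2 h3
  refine ⟨ω, h1, fun p hp => ?_, ?_⟩
  · have := h2 p hp
    linarith
  · linarith

end Pool.Agent.Helper53.BM
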