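import Pool.Agent.Helper53.BM.Push

set_option autoImplicit false

open Filter Topology Asymptotics

namespace Pool.Agent.Helper53.BM

variable {E : Type*} [NormedAddCommGroup E] [NormedSpace ℝ E]

/-- Second order expansion of the squared norm at an arbitrary nonzero point, transported from a
single point by almost transitivity. -/
lemma taylor_transport
    (htrans : ∀ x y : E, ‖x‖ = 1 → ‖y‖ = 1 → ∀ ε : ℝ, 0 < ε → ∃ T : E ≃ₗᵢ[ℝ] E, ‖T x - y‖ < ε)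
    {x₀ : E} (hx₀ : ‖x₀‖ = 1) (f : E →L[ℝ] ℝ) (g : E →L[ℝ] E →L[ℝ] ℝ) {ε δ : ℝ}
    (hε : 0 < ε) (hδ : 0 < δ)
    (hT : ∀ h : E, ‖h‖ ≤ 2 * δ → |‖x₀ + h‖ ^ 2 - ‖x₀‖ ^ 2 - 2 * f h - g h h| ≤ ε * ‖h‖ ^ 2)
    (y : E) (hy : y ≠ 0) {τ : ℝ} (hτ : 0 < τ) :
    ∃ U : E ≃ₗᵢ[ℝ] E, ∀ h : E, ‖h‖ ≤ δ * ‖y‖ →
      |‖y + h‖ ^ 2 - ‖y‖ ^ 2 - 2 * (‖y‖ * f (U h)) - g (U h) (U h)| ≤ ε * ‖h‖ ^ 2 + τ := by
  have hρ : 0 < ‖y‖ := norm_pos_iff.mpr hy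
  set ρ : ℝ := ‖y‖ with hρdef
  set C : ℝ := 2 * ‖f‖ + (‖g‖ + ε) * (2 * δ + 1) with hC
  have hC0 : 0 < C := by positivity
  set κ : ℝ := min (min δ 1) (τ / (ρ ^ 2 * C)) with hκ
  have hκ0 : 0 < κ := lt_min (lt_min hδ one_pos) (by positivity)
  have hκδ : κ ≤ δ := (min_le_left _ _).trans (min_le_left _ _)
  have hκ1 : κ ≤ 1 := (min_le_left _ _).trans (min_le_right _ _)
  have hκτ : ρ ^ 2 * (κ * C) ≤ τ := by
    have : κ ≤ τ / (ρ ^ 2 * C) := min_le_right _ _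
    rw [le_div_iff₀ (by positivity)] at this
    linarith
  obtain ⟨U, hU⟩ := htrans (ρ⁻¹ • y) x₀
    (by rw [norm_smul, norm_inv, norm_norm, inv_mul_cancel₀ hρ.ne']) hx₀ κ hκ0
  refine ⟨U, fun h hh => ?_⟩
  set e : E := U (ρ⁻¹ • y) - x₀ with he
  have hUy : U y = ρ • (x₀ + e) := by
    rw [he, add_sub_cancel, ← map_smul, smul_smul, mul_inv_cancel₀ hρ.ne', one_smul]
  set h' : E := ρ⁻¹ • U h with hh'
  have hUh : U h = ρ • h' := by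
    rw [hh', smul_smul, mul_inv_cancel₀ hρ.ne', one_smul]
  have hh'n : ρ * ‖h'‖ = ‖h‖ := by
    have h0 := congrArg norm hUh
    rw [U.norm_map, norm_smul, Real.norm_eq_abs, abs_of_pos hρ] at h0
    exact h0.symm
  have hh'δ : ‖h'‖ ≤ δ := by
    have : ρ * ‖h'‖ ≤ ρ * δ := by rw [hh'n]; linarith
    exact le_of_mul_le_mul_left this hρ
  have e1 : ‖y + h‖ = ρ * ‖x₀ + (e + h')‖ := by
    have : U (y + h) = ρ • (x₀ + (e + h')) := by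
      rw [map_add, hUy, hUh]
      simp only [smul_add]
      abel
    rw [← U.norm_map (y + h), this, norm_smul, Real.norm_eq_abs, abs_of_pos hρ]
  have hen : ‖e‖ ≤ κ := hU.le
  have key := hT (e + h') (by
    calc ‖e + h'‖ ≤ ‖e‖ + ‖h'‖ := norm_add_le _ _
      _ ≤ κ + δ := add_le_add hen hh'δ
      _ ≤ 2 * δ := by linarith)
  rw [hx₀] at key
  set A : ℝ := ‖x₀ + (e + h')‖ ^ 2 - 1 ^ 2 - 2 * f (e + h') - g (e + h') (e + h') with hA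
  have e2 : ‖y + h‖ ^ 2 - ρ ^ 2 - 2 * (ρ * f (U h)) - g (U h) (U h) =
      ρ ^ 2 * (A + (2 * f e + (g e h' + g h' e + g e e))) := by
    rw [e1, hUh, hA]
    simp only [map_smul, map_add, smul_eq_mul, smul_apply,
      add_apply]
    ring
  have hfe : |f e| ≤ ‖f‖ * κ := by
    calc |f e| ≤ ‖f‖ * ‖e‖ := by simpa using f.le_opNorm e
      _ ≤ ‖f‖ * κ := by gcongr
  have hgg : ∀ a b : E, |g a b| ≤ ‖g‖ * ‖a‖ * ‖b‖ := fun a b => by simpa using g.le_opNorm₂ a b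
  have h1 : |g e h'| ≤ ‖g‖ * κ * δ := (hgg e h').trans (by gcongr)
  have h2 : |g h' e| ≤ ‖g‖ * δ * κ := (hgg h' e).trans (by gcongr)
  have h3 : |g e e| ≤ ‖g‖ * κ * 1 := (hgg e e).trans (by gcongr; exact hen.trans hκ1)
  have h4 : ‖e + h'‖ ^ 2 ≤ ‖h'‖ ^ 2 + κ * (2 * δ + 1) := by
    have h5 : ‖e + h'‖ ≤ κ + ‖h'‖ := (norm_add_le _ _).trans (by gcongr)
    have h6 : ‖e + h'‖ ^ 2 ≤ (κ + ‖h'‖) ^ 2 := by gcongr
    nlinarith [norm_nonneg h', mul_le_mul_of_nonneg_left hh'δ hκ0.le,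
      mul_le_mul_of_nonneg_left hκ1 hκ0.le]
  have h7 : |A + (2 * f e + (g e h' + g h' e + g e e))| ≤ ε * ‖h'‖ ^ 2 + κ * C := by
    have h8 : |A + (2 * f e + (g e h' + g h' e + g e e))| ≤
        |A| + (2 * |f e| + (|g e h'| + |g h' e| + |g e e|)) := by
      refine (abs_add_le _ _).trans ?_
      gcongr
      refine (abs_add_le _ _).trans ?_
      rw [abs_mul, abs_two]
      gcongr
      refine (abs_add_le _ _).trans ?_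
      gcongr
      exact abs_add_le _ _
    have h9 : ε * ‖e + h'‖ ^ 2 ≤ ε * (‖h'‖ ^ 2 + κ * (2 * δ + 1)) := by gcongr
    rw [hC]
    nlinarith
  rw [e2, abs_mul, abs_of_nonneg (by positivity)]
  calc ρ ^ 2 * _ ≤ ρ ^ 2 * (ε * ‖h'‖ ^ 2 + κ * C) := by gcongr
    _ = ε * (ρ * ‖h'‖) ^ 2 + ρ ^ 2 * (κ * C) := by ring
    _ ≤ ε * ‖h‖ ^ 2 + τ := by rw [hh'n]; linarith

/-- The second order expansion at all nonzero points. -/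
def UniformTaylor (f : E →L[ℝ] ℝ) (g : E →L[ℝ] E →L[ℝ] ℝ) : Prop :=
  ∀ ε : ℝ, 0 < ε → ∃ δ : ℝ, 0 < δ ∧ ∀ y : E, y ≠ 0 → ∀ τ : ℝ, 0 < τ →
    ∃ U : E ≃ₗᵢ[ℝ] E, ∀ h : E, ‖h‖ ≤ δ * ‖y‖ →
      |‖y + h‖ ^ 2 - ‖y‖ ^ 2 - 2 * (‖y‖ * f (U h)) - g (U h) (U h)| ≤ ε * ‖h‖ ^ 2 + τ

lemma uniformTaylor
    (htrans : ∀ x y : E, ‖x‖ = 1 → ‖y‖ = 1 → ∀ ε : ℝ, 0 < ε → ∃ T : E ≃ₗᵢ[ℝ] E, ‖T x - y‖ < ε)
    {x₀ : E} (hx₀ : ‖x₀‖ = 1) (f : E →L[ℝ] ℝ) (g : E →L[ℝ] E →L[ℝ] ℝ)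
    (hT : (fun h : E => ‖x₀ + h‖ ^ 2 - ‖x₀‖ ^ 2 - 2 * f h - g h h) =o[𝓝 0]
      (fun h : E => ‖h‖ ^ 2)) : UniformTaylor f g := by
  intro ε hε
  have h1 := hT.bound hε
  rw [Metric.eventually_nhds_iff_ball] at h1
  obtain ⟨r, hr, h2⟩ := h1
  refine ⟨r / 4, by positivity, fun y hy τ hτ => ?_⟩
  refine taylor_transport htrans hx₀ f g hε (by positivity) (fun h hh => ?_) y hy hτ
  have h3 := h2 h (by
    rw [mem_ball_zero_iff]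
    linarith)
  simpa using h3

/-- The essential supremum of a bounded 2-homogeneous function over the subspaces of finite
codimension. -/
lemma exists_ess_sup (hinf : ¬ FiniteDimensional ℝ E) (q : E → ℝ) {C : ℝ}
    (hq : ∀ w, |q w| ≤ C * ‖w‖ ^ 2) (hhom : ∀ (c : ℝ) (w : E), q (c • w) = c ^ 2 * q w) :
    ∃ μ : ℝ, (∀ η : ℝ, 0 < η → ∃ Φ : Finset (StrongDual ℝ E), ∀ w : E,
        (∀ φ ∈ Φ, φ w = 0) → q w ≤ (μ + η) * ‖w‖ ^ 2) ∧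
      (∀ η : ℝ, 0 < η → ∀ Ψ : Finset (StrongDual ℝ E), ∃ w : E, ‖w‖ = 1 ∧
        (∀ φ ∈ Ψ, φ w = 0) ∧ μ - η ≤ q w) := by
  set A : Finset (StrongDual ℝ E) → Set ℝ := fun Φ =>
    {r | ∃ w : E, ‖w‖ = 1 ∧ (∀ φ ∈ Φ, φ w = 0) ∧ r = q w} with hA
  have hne : ∀ Φ, (A Φ).Nonempty := by
    intro Φ
    obtain ⟨w, hw, hw'⟩ := exists_ker_vector hinf Φ zero_le_one
    exact ⟨_, w, hw, hw', rfl⟩
  have hbd : ∀ Φ, ∀ r ∈ A Φ, |r| ≤ C := by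
    rintro Φ r ⟨w, hw, -, rfl⟩
    have := hq w
    rwa [hw, one_pow, mul_one] at this
  have hbdd : ∀ Φ, BddAbove (A Φ) := fun Φ => ⟨C, fun r hr => (le_abs_self r).trans (hbd Φ r hr)⟩
  have hlow : ∀ Φ, -C ≤ sSup (A Φ) := by
    intro Φ
    obtain ⟨r, hr⟩ := hne Φ
    exact ((neg_le_neg (hbd Φ r hr)).trans (neg_abs_le r)).trans (le_csSup (hbdd Φ) hr)
  set μ : ℝ := sInf (Set.range fun Φ => sSup (A Φ)) with hμ
  have hbelow : BddBelow (Set.range fun Φ => sSup (A Φ)) := by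
    refine ⟨-C, ?_⟩
    rintro _ ⟨Φ, rfl⟩
    exact hlow Φ
  refine ⟨μ, fun η hη => ?_, fun η hη Ψ => ?_⟩
  · obtain ⟨_, ⟨Φ, rfl⟩, hΦ⟩ := exists_lt_of_csInf_lt (Set.range_nonempty _)
      (show sInf (Set.range fun Φ => sSup (A Φ)) < μ + η by rw [← hμ]; linarith)
    refine ⟨Φ, fun w hw => ?_⟩
    rcases eq_or_ne w 0 with h0 | h0
    · subst h0
      have : q 0 = 0 := by
        have := hhom 0 0
        simpa using this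
      simp [this]
    · have hwn : 0 < ‖w‖ := norm_pos_iff.mpr h0
      have h1 : q (‖w‖⁻¹ • w) ≤ sSup (A Φ) := by
        refine le_csSup (hbdd Φ) ⟨_, ?_, fun φ hφ => ?_, rfl⟩
        · rw [norm_smul, norm_inv, norm_norm, inv_mul_cancel₀ hwn.ne']
        · rw [map_smul, hw φ hφ, smul_zero]
      rw [hhom] at h1
      have h2 : q w = ‖w‖ ^ 2 * ((‖w‖⁻¹) ^ 2 * q w) := by field_simp
      rw [h2, mul_comm (μ + η)]
      have h3 : sSup (A Φ) < μ + η := hΦ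
      have : (‖w‖⁻¹) ^ 2 * q w ≤ μ + η := by linarith
      gcongr
  · have h1 : μ - η < sSup (A Ψ) := by
      have : μ ≤ sSup (A Ψ) := csInf_le hbelow ⟨Ψ, rfl⟩
      linarith
    obtain ⟨r, ⟨w, hw, hw', rfl⟩, hr⟩ := exists_lt_of_lt_csSup (hne Ψ) h1
    exact ⟨w, hw, hw', hr.le⟩

end Pool.Agent.Helper53.BM
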