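import Pool.Agent.Helper53.BM.PushSet

set_option autoImplicit false

open Filter Topology

namespace Pool.Agent.Helper53.BM

universe u

section
variable {E : Type*} [NormedAddCommGroup E] [NormedSpace ℝ E]

/-- Limits of conjugates of a bilinear form by isometries. -/
lemma exists_limit_form {ι : Type*} (𝒰 : Ultrafilter ι) (V : ι → E ≃ₗᵢ[ℝ] E)
    (g : E →L[ℝ] E →L[ℝ] ℝ) :
    ∃ h : E →L[ℝ] E →L[ℝ] ℝ, ∀ x y, Tendsto (fun i => g (V i x) (V i y)) 𝒰 (𝓝 (h x y)) := by
  have hb : ∀ x y i, |g (V i x) (V i y)| ≤ ‖g‖ * ‖x‖ * ‖y‖ := by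
    intro x y i
    have := g.le_opNorm₂ (V i x) (V i y)
    simpa using this
  have hex : ∀ x y, ∃ a : ℝ, |a| ≤ ‖g‖ * ‖x‖ * ‖y‖ ∧
      Tendsto (fun i => g (V i x) (V i y)) 𝒰 (𝓝 a) := by
    intro x y
    obtain ⟨a, ha, ha'⟩ := (isCompact_Icc (a := -(‖g‖ * ‖x‖ * ‖y‖)) (b := ‖g‖ * ‖x‖ * ‖y‖)).ultrafilter_le_nhds
      (𝒰.map fun i => g (V i x) (V i y)) (by
        rw [Ultrafilter.coe_map, le_principal_iff, Filter.mem_map]
        exact Filter.univ_mem' fun i => abs_le.mp (hb x y i))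
    exact ⟨a, abs_le.mpr ha, ha'⟩
  choose h hh1 hh2 using hex
  have hadd1 : ∀ x x' y, h (x + x') y = h x y + h x' y := by
    intro x x' y
    refine tendsto_nhds_unique (hh2 (x + x') y) ?_
    refine ((hh2 x y).add (hh2 x' y)).congr fun i => ?_
    simp
  have hsmul1 : ∀ (c : ℝ) x y, h (c • x) y = c • h x y := by
    intro c x y
    refine tendsto_nhds_unique (hh2 (c • x) y) ?_
    refine ((hh2 x y).const_smul c).congr fun i => ?_
    simp
  have hadd2 : ∀ x y y', h x (y + y') = h x y + h x y' := by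
    intro x y y'
    refine tendsto_nhds_unique (hh2 x (y + y')) ?_
    refine ((hh2 x y).add (hh2 x y')).congr fun i => ?_
    simp
  have hsmul2 : ∀ (c : ℝ) x y, h x (c • y) = c • h x y := by
    intro c x y
    refine tendsto_nhds_unique (hh2 x (c • y)) ?_
    refine ((hh2 x y).const_smul c).congr fun i => ?_
    simp
  refine ⟨LinearMap.mkContinuous₂ (LinearMap.mk₂ ℝ h hadd1 hsmul1 hadd2 hsmul2) ‖g‖ ?_, ?_⟩
  · intro x y
    simpa using hh1 x y
  · intro x y
    simpa using hh2 x y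

/-- Limits of pull backs of a functional by isometries. -/
lemma exists_limit_functional {ι : Type*} (𝒰 : Ultrafilter ι) (V : ι → E ≃ₗᵢ[ℝ] E)
    (ξ : StrongDual ℝ E) :
    ∃ ξ' : StrongDual ℝ E, ∀ x, Tendsto (fun i => ξ (V i x)) 𝒰 (𝓝 (ξ' x)) := by
  have hb : ∀ x i, |ξ (V i x)| ≤ ‖ξ‖ * ‖x‖ := by
    intro x i
    have := ξ.le_opNorm (V i x)
    simpa using this
  have hex : ∀ x, ∃ a : ℝ, |a| ≤ ‖ξ‖ * ‖x‖ ∧ Tendsto (fun i => ξ (V i x)) 𝒰 (𝓝 a) := by
    intro x
    obtain ⟨a, ha, ha'⟩ := (isCompact_Icc (a := -(‖ξ‖ * ‖x‖)) (b := ‖ξ‖ * ‖x‖)).ultrafilter_le_nhds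
      (𝒰.map fun i => ξ (V i x)) (by
        rw [Ultrafilter.coe_map, le_principal_iff, Filter.mem_map]
        exact Filter.univ_mem' fun i => abs_le.mp (hb x i))
    exact ⟨a, abs_le.mpr ha, ha'⟩
  choose h hh1 hh2 using hex
  let L : E →ₗ[ℝ] ℝ :=
    { toFun := h
      map_add' := by
        intro x y
        refine tendsto_nhds_unique (hh2 (x + y)) ?_
        refine ((hh2 x).add (hh2 y)).congr fun i => ?_
        simp
      map_smul' := by
        intro c x
        refine tendsto_nhds_unique (hh2 (c • x)) ?_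
        refine ((hh2 x).const_smul c).congr fun i => ?_
        simp }
  refine ⟨L.mkContinuous ‖ξ‖ fun x => ?_, fun x => ?_⟩
  · exact hh1 x
  · exact hh2 x

end

/-- A copy of a vector space, forgetting the norm. -/
def Copy (E : Type u) : Type u := E

instance (E : Type u) [AddCommGroup E] : AddCommGroup (Copy E) := inferInstanceAs (AddCommGroup E)

instance (E : Type u) [AddCommGroup E] [Module ℝ E] : Module ℝ (Copy E) :=
  inferInstanceAs (Module ℝ E)

/-- Transport of a coercive symmetric form to a copy of the space. -/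
lemma exists_hilbert_aux {E : Type u} [NormedAddCommGroup E] [NormedSpace ℝ E] [CompleteSpace E]
    {F : Type u} [AddCommGroup F] [Module ℝ F] (e : E ≃ₗ[ℝ] F)
    (h : E →L[ℝ] E →L[ℝ] ℝ) (hsymm : ∀ x y, h x y = h y x) {c : ℝ} (hc : 0 < c)
    (hlow : ∀ x, c * ‖x‖ ^ 2 ≤ h x x) :
    ∃ (H : Type u) (_ : NormedAddCommGroup H) (_ : InnerProductSpace ℝ H)
      (_ : CompleteSpace H) (T : E ≃L[ℝ] H), ∀ x, ‖T x‖ ^ 2 = h x x := by
  have hnn : ∀ x, 0 ≤ h x x := fun x => le_trans (by positivity) (hlow x)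
  let core : InnerProductSpace.Core ℝ F :=
    { inner := fun x y => h (e.symm x) (e.symm y)
      conj_inner_symm := fun x y => hsymm _ _
      re_inner_nonneg := fun x => hnn _
      add_left := fun x y z => by
        change h (e.symm (x + y)) (e.symm z) = h (e.symm x) (e.symm z) + h (e.symm y) (e.symm z)
        rw [map_add, map_add, add_apply]
      smul_left := fun x y r => by
        change h (e.symm (r • x)) (e.symm y) = r * h (e.symm x) (e.symm y)
        rw [map_smul, map_smul, smul_apply, smul_eq_mul]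
      definite := fun x hx => by
        have h1 := hlow (e.symm x)
        have h2 : h (e.symm x) (e.symm x) = 0 := hx
        rw [h2] at h1
        have h3 : ‖e.symm x‖ ^ 2 ≤ 0 := by
          by_contra hcon
          push Not at hcon
          have := mul_pos hc hcon
          linarith
        have h4 : ‖e.symm x‖ = 0 := by
          have := sq_nonneg ‖e.symm x‖
          exact pow_eq_zero_iff (two_ne_zero) |>.mp (le_antisymm h3 this)
        have h5 : e.symm x = 0 := norm_eq_zero.mp h4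
        simpa using h5 }
  let i1 : NormedAddCommGroup F := core.toNormedAddCommGroup
  let i2 : InnerProductSpace ℝ F := InnerProductSpace.ofCore core.toCore
  have hnorm : ∀ x : F, ‖x‖ ^ 2 = h (e.symm x) (e.symm x) := by
    intro x
    rw [← real_inner_self_eq_norm_sq]
    rfl
  have he : ∀ x, ‖e x‖ ^ 2 = h x x := fun x => by rw [hnorm, e.symm_apply_apply]
  have hup : ∀ x, ‖e x‖ ≤ (‖h‖ + 1) * ‖x‖ := by
    intro x
    have h1 : ‖e x‖ ^ 2 ≤ ((‖h‖ + 1) * ‖x‖) ^ 2 := by
      rw [he]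
      have h2 : |h x x| ≤ ‖h‖ * ‖x‖ * ‖x‖ := by simpa using h.le_opNorm₂ x x
      have h3 := le_abs_self (h x x)
      nlinarith [norm_nonneg h, norm_nonneg x, mul_nonneg (norm_nonneg h) (norm_nonneg h),
        mul_nonneg (mul_nonneg (norm_nonneg h) (norm_nonneg h)) (sq_nonneg ‖x‖),
        mul_nonneg (norm_nonneg h) (sq_nonneg ‖x‖)]
    exact le_of_sq_le_sq h1 (by positivity)
  have hdn : ∀ x : F, ‖e.symm x‖ ≤ (Real.sqrt c)⁻¹ * ‖x‖ := by
    intro x
    have h1 := hlow (e.symm x)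
    rw [← hnorm] at h1
    rw [inv_mul_eq_div, le_div_iff₀ (by positivity)]
    have h3 : (‖e.symm x‖ * Real.sqrt c) ^ 2 ≤ ‖x‖ ^ 2 := by
      rw [mul_pow, Real.sq_sqrt hc.le]
      linarith
    exact le_of_sq_le_sq h3 (norm_nonneg _)
  let T : E ≃L[ℝ] F := e.toContinuousLinearEquivOfBounds _ _ hup hdn
  have hcomp : CompleteSpace F :=
    (completeSpace_congr (e := T.toEquiv) T.isUniformEmbedding).mp inferInstance
  exact ⟨F, i1, i2, hcomp, T, he⟩

/-- A coercive symmetric bounded form on a Banach space gives an isomorphic Hilbert space. -/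
lemma exists_hilbert {E : Type u} [NormedAddCommGroup E] [NormedSpace ℝ E] [CompleteSpace E]
    (h : E →L[ℝ] E →L[ℝ] ℝ) (hsymm : ∀ x y, h x y = h y x) {c : ℝ} (hc : 0 < c)
    (hlow : ∀ x, c * ‖x‖ ^ 2 ≤ h x x) :
    ∃ (H : Type u) (_ : NormedAddCommGroup H) (_ : InnerProductSpace ℝ H)
      (_ : CompleteSpace H) (T : E ≃L[ℝ] H), ∀ x, ‖T x‖ ^ 2 = h x x :=
  exists_hilbert_aux (F := Copy E) (LinearEquiv.refl ℝ E) h hsymm hc hlow

/-- A Banach space isomorphic to a Hilbert space is reflexive. -/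
lemma bidual_exact {E : Type*} [NormedAddCommGroup E] [NormedSpace ℝ E]
    {H : Type*} [NormedAddCommGroup H] [InnerProductSpace ℝ H] [CompleteSpace H]
    (T : E ≃L[ℝ] H) (ζ : StrongDual ℝ (StrongDual ℝ E)) :
    ∃ y₀ : E, ∀ φ : StrongDual ℝ E, ζ φ = φ y₀ := by
  set D : H →L[ℝ] StrongDual ℝ H := innerSL ℝ with hD
  set P : StrongDual ℝ H →L[ℝ] StrongDual ℝ E :=
    (ContinuousLinearMap.compL ℝ E H ℝ).flip (T : E →L[ℝ] H) with hP
  have hPapp : ∀ ψ : StrongDual ℝ H, P ψ = ψ.comp (T : E →L[ℝ] H) := fun ψ => rfl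
  set L : StrongDual ℝ H := ζ.comp (P.comp D) with hL
  set y : H := (InnerProductSpace.toDual ℝ H).symm L with hy
  have hyL : ∀ v : H, inner ℝ y v = L v := fun v => InnerProductSpace.toDual_symm_apply
  refine ⟨T.symm y, fun φ => ?_⟩
  set v : H := (InnerProductSpace.toDual ℝ H).symm (φ.comp (T.symm : H →L[ℝ] E)) with hv
  have hv' : ∀ w : H, inner ℝ v w = φ (T.symm w) := fun w => by
    rw [hv, InnerProductSpace.toDual_symm_apply]
    rfl
  have h1 : P (D v) = φ := by
    ext x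
    rw [hPapp]
    change D v (T x) = φ x
    rw [hD]
    change inner ℝ v (T x) = φ x
    rw [hv', T.symm_apply_apply]
  calc ζ φ = ζ (P (D v)) := by rw [h1]
    _ = L v := rfl
    _ = inner ℝ y v := (hyL v).symm
    _ = inner ℝ v y := real_inner_comm _ _
    _ = φ (T.symm y) := hv' y

end Pool.Agent.Helper53.BM
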