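import Pool.Agent.Helper53.BM.Control

set_option autoImplicit false

open Filter Topology Asymptotics

namespace Pool.Agent.Helper53.BM

variable {E : Type*} [NormedAddCommGroup E] [NormedSpace ℝ E]

/-- After a suitable isometry the second derivative is one-sidedly compared with the square of the
norm on any given finite set. -/
lemma exists_good_isometry {f : E →L[ℝ] ℝ} {g : E →L[ℝ] E →L[ℝ] ℝ} (hT : UniformTaylor f g)
    {x₀ : E} (hx₀ : ‖x₀‖ = 1)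
    (σ : ℝ) (hσ : |σ| = 1) {μ : ℝ} (hσμ : 0 < σ * μ)
    (hμ1 : ∀ η : ℝ, 0 < η → ∃ Φ : Finset (StrongDual ℝ E), ∀ w : E,
        (∀ φ ∈ Φ, φ w = 0) → σ * g w w ≤ (μ + η) * ‖w‖ ^ 2)
    (hμ2 : ∀ η : ℝ, 0 < η → ∀ Ψ : Finset (StrongDual ℝ E), ∃ w : E, ‖w‖ = 1 ∧
        (∀ φ ∈ Ψ, φ w = 0) ∧ μ - η ≤ σ * g w w)
    (Z : Finset E) {ε : ℝ} (hε : 0 < ε) :
    ∃ U : E ≃ₗᵢ[ℝ] E, ∀ z ∈ Z, σ * g (U z) (U z) ≤ σ * ‖z‖ ^ 2 + ε := by
  classical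
  have hσ2 : σ * σ = 1 := by
    rw [← abs_mul_abs_self, hσ, one_mul]
  -- a bound for the vectors
  set B : ℝ := ∑ z ∈ Z, ‖z‖ with hB
  have hB0 : 0 ≤ B := Finset.sum_nonneg fun _ _ => norm_nonneg _
  have hBz : ∀ z ∈ Z, ‖z‖ ≤ B := fun z hz =>
    Finset.single_le_sum (f := fun z : E => ‖z‖) (fun _ _ => norm_nonneg _) hz
  set ε₁ : ℝ := ε / (4 * (B ^ 2 + 1)) with hε₁
  have hε₁0 : 0 < ε₁ := by positivity
  have hε₁B : ε₁ * B ^ 2 ≤ ε / 4 := by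
    rw [hε₁, div_mul_eq_mul_div, div_le_div_iff₀ (by positivity) (by norm_num)]
    nlinarith
  obtain ⟨δ, hδ0, hδ⟩ := hT ε₁ hε₁0
  -- the base point
  obtain ⟨θ, hθ0, hθ1, hθZ⟩ : ∃ θ : ℝ, 0 < θ ∧ 2 * θ ^ 2 + 2 * θ * B ≤ ε / 4 ∧
      ∀ z ∈ Z, θ • x₀ + z ≠ 0 ∧ θ • x₀ - z ≠ 0 := by
    have h1 : ∀ᶠ θ : ℝ in 𝓝[>] 0, 2 * θ ^ 2 + 2 * θ * B < ε / 4 := by
      have h2 : Tendsto (fun θ : ℝ => 2 * θ ^ 2 + 2 * θ * B) (𝓝[>] 0)
          (𝓝 (2 * (0 : ℝ) ^ 2 + 2 * 0 * B)) :=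
        (Continuous.tendsto' (by fun_prop) _ _ rfl).mono_left nhdsWithin_le_nhds
      exact h2.eventually (gt_mem_nhds (by simpa using by positivity))
    have h3 : ∀ v : E, ∀ᶠ θ : ℝ in 𝓝[>] 0, θ • x₀ ≠ v := by
      intro v
      rcases eq_or_ne v 0 with hv | hv
      · filter_upwards [self_mem_nhdsWithin] with θ hθ h
        have h4 := congrArg norm h
        rw [hv, norm_smul, hx₀, norm_zero, mul_one, norm_eq_zero] at h4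
        exact (ne_of_gt hθ) h4
      · have h5 : Tendsto (fun θ : ℝ => θ • x₀) (𝓝[>] 0) (𝓝 ((0 : ℝ) • x₀)) :=
          (Continuous.tendsto' (by fun_prop) _ _ rfl).mono_left nhdsWithin_le_nhds
        rw [zero_smul] at h5
        exact h5.eventually (isOpen_ne.mem_nhds hv.symm)
    have h6 : ∀ᶠ θ : ℝ in 𝓝[>] 0, ∀ z ∈ Z, θ • x₀ + z ≠ 0 ∧ θ • x₀ - z ≠ 0 := by
      rw [Filter.eventually_all_finset]
      intro z _
      filter_upwards [h3 z, h3 (-z)] with θ h7 h8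
      exact ⟨fun h => h8 (eq_neg_of_add_eq_zero_left h), fun h => h7 (sub_eq_zero.mp h)⟩
    obtain ⟨θ, h9, h10, h11⟩ := (h1.and (h6.and self_mem_nhdsWithin)).exists
    exact ⟨θ, h11, h9.le, h10⟩
  set p₀ : E := θ • x₀ with hp₀
  have hp₀n : ‖p₀‖ = θ := by rw [hp₀, norm_smul, hx₀, mul_one, Real.norm_eq_abs, abs_of_pos hθ0]
  have hp₀0 : p₀ ≠ 0 := by
    intro h
    rw [h, norm_zero] at hp₀n
    exact hθ0.ne hp₀n
  set P : Finset E := insert p₀ (Z.image (fun z => p₀ + z) ∪ Z.image (fun z => p₀ - z)) with hP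
  have hP0 : ∀ p ∈ P, p ≠ 0 := by
    intro p hp
    rw [hP, Finset.mem_insert, Finset.mem_union, Finset.mem_image, Finset.mem_image] at hp
    rcases hp with rfl | ⟨z, hz, rfl⟩ | ⟨z, hz, rfl⟩
    · exact hp₀0
    · exact (hθZ z hz).1
    · exact (hθZ z hz).2
  set ε' : ℝ := min 1 (ε / 16) with hε'
  have hε'0 : 0 < ε' := lt_min one_pos (by positivity)
  have hε'1 : ε' ≤ 1 := min_le_left _ _
  have hε'2 : ε' ≤ ε / 16 := min_le_right _ _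
  set R : ℝ := Real.sqrt (((B / δ) ^ 2 + 1) / (σ * μ)) with hR
  have hR0 : 0 < R := Real.sqrt_pos.mpr (by positivity)
  have hR2 : R ^ 2 * (σ * μ) = (B / δ) ^ 2 + 1 := by
    rw [hR, Real.sq_sqrt (by positivity), div_mul_cancel₀ _ hσμ.ne']
  obtain ⟨ω, -, h2, h3⟩ := control hT σ hσ hμ1 hμ2 P hP0 (p₀ := p₀)
    (by rw [hP]; exact Finset.mem_insert_self _ _) hR0 hε'0
  have h2₀ := h2 p₀ (by rw [hP]; exact Finset.mem_insert_self _ _)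
  set y : E := p₀ + ω with hy
  have hyn : (B / δ) ^ 2 ≤ ‖y‖ ^ 2 := by
    have h4 : |σ * (‖y‖ ^ 2 - ‖p₀‖ ^ 2) - R ^ 2 * μ| ≤ ε' := by
      rw [abs_le]
      constructor <;> linarith
    have h5 : |σ * (σ * (‖y‖ ^ 2 - ‖p₀‖ ^ 2) - R ^ 2 * μ)| ≤ ε' := by
      rw [abs_mul, hσ, one_mul]
      exact h4
    have h6 : σ * (σ * (‖y‖ ^ 2 - ‖p₀‖ ^ 2) - R ^ 2 * μ) =
        (σ * σ) * (‖y‖ ^ 2 - ‖p₀‖ ^ 2) - R ^ 2 * (σ * μ) := by ring
    rw [h6, hσ2, hR2, one_mul] at h5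
    have h7 := (abs_le.mp h5).1
    have h8 : 0 ≤ ‖p₀‖ ^ 2 := by positivity
    linarith
  have hyB : B ≤ δ * ‖y‖ := by
    have h9 : B / δ ≤ ‖y‖ := le_of_sq_le_sq hyn (norm_nonneg _)
    rw [div_le_iff₀ hδ0] at h9
    linarith
  have hy0 : y ≠ 0 := by
    intro h0
    rw [h0, norm_zero, mul_zero] at hyB
    have hB00 : B = 0 := le_antisymm hyB hB0
    -- the norm is at least one
    have h4 : |σ * (‖y‖ ^ 2 - ‖p₀‖ ^ 2) - R ^ 2 * μ| ≤ ε' := by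
      rw [abs_le]
      constructor <;> linarith
    have h5 : |σ * (σ * (‖y‖ ^ 2 - ‖p₀‖ ^ 2) - R ^ 2 * μ)| ≤ ε' := by
      rw [abs_mul, hσ, one_mul]
      exact h4
    have h6 : σ * (σ * (‖y‖ ^ 2 - ‖p₀‖ ^ 2) - R ^ 2 * μ) =
        (σ * σ) * (‖y‖ ^ 2 - ‖p₀‖ ^ 2) - R ^ 2 * (σ * μ) := by ring
    rw [h6, hσ2, hR2, one_mul, h0, norm_zero] at h5
    have h7 := (abs_le.mp h5).1
    have h8 : 0 < ‖p₀‖ ^ 2 := by
      rw [hp₀n]
      positivity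
    have h9 : 0 ≤ (B / δ) ^ 2 := by positivity
    linarith
  obtain ⟨U, hU⟩ := hδ y hy0 (ε / 16) (by positivity)
  refine ⟨U, fun z hz => ?_⟩
  have hzB := hBz z hz
  have ha := hU z (hzB.trans hyB)
  have hb := hU (-z) (by rw [norm_neg]; exact hzB.trans hyB)
  simp only [map_neg, neg_apply, neg_neg, norm_neg] at hb
  rw [← sub_eq_add_neg] at hb
  have hc : |‖y + z‖ ^ 2 + ‖y - z‖ ^ 2 - 2 * ‖y‖ ^ 2 - 2 * g (U z) (U z)| ≤
      2 * (ε₁ * ‖z‖ ^ 2 + ε / 16) := by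
    rw [abs_le] at ha hb ⊢
    constructor <;> linarith [ha.1, ha.2, hb.1, hb.2]
  have hd : |σ * (‖y + z‖ ^ 2 + ‖y - z‖ ^ 2 - 2 * ‖y‖ ^ 2 - 2 * g (U z) (U z))| ≤
      2 * (ε₁ * ‖z‖ ^ 2 + ε / 16) := by
    rw [abs_mul, hσ, one_mul]
    exact hc
  have hzp := h2 (p₀ + z) (by
    rw [hP]
    exact Finset.mem_insert_of_mem (Finset.mem_union_left _
      (Finset.mem_image_of_mem (fun z => p₀ + z) hz)))
  have hzm := h2 (p₀ - z) (by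
    rw [hP]
    exact Finset.mem_insert_of_mem (Finset.mem_union_right _
      (Finset.mem_image_of_mem (fun z => p₀ - z) hz)))
  have e1 : p₀ + z + ω = y + z := by rw [hy]; abel
  have e2 : p₀ - z + ω = y - z := by rw [hy]; abel
  rw [e1] at hzp
  rw [e2] at hzm
  -- the base point contributes little
  have hbase : |‖p₀ + z‖ ^ 2 + ‖p₀ - z‖ ^ 2 - 2 * ‖p₀‖ ^ 2 - 2 * ‖z‖ ^ 2| ≤ ε / 2 := by
    have k1 : ‖p₀ + z‖ ≤ θ + ‖z‖ := by rw [← hp₀n]; exact norm_add_le _ _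
    have k2 : ‖p₀ - z‖ ≤ θ + ‖z‖ := by rw [← hp₀n]; exact norm_sub_le _ _
    have k3 : ‖z‖ - θ ≤ ‖p₀ + z‖ := by
      have := norm_sub_norm_le z (-p₀)
      rw [norm_neg, hp₀n, sub_neg_eq_add, add_comm z] at this
      exact this
    have k4 : ‖z‖ - θ ≤ ‖p₀ - z‖ := by
      have := norm_sub_norm_le z p₀
      rw [hp₀n, norm_sub_rev] at this
      exact this
    have k5 : ∀ t : ℝ, 0 ≤ t → t ≤ θ + ‖z‖ → ‖z‖ - θ ≤ t →
        |t ^ 2 - ‖z‖ ^ 2| ≤ θ ^ 2 + 2 * θ * ‖z‖ := by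
      intro t ht0 ht1 ht2
      rw [abs_le]
      constructor
      · rcases le_or_gt (‖z‖ - θ) 0 with h | h
        · nlinarith [norm_nonneg z]
        · nlinarith [norm_nonneg z]
      · nlinarith [norm_nonneg z]
    have k6 := k5 _ (norm_nonneg _) k1 k3
    have k7 := k5 _ (norm_nonneg _) k2 k4
    have k8 : 2 * θ * ‖z‖ ≤ 2 * θ * B := by gcongr
    rw [hp₀n]
    rw [abs_le] at k6 k7 ⊢
    have hθ2 : 0 ≤ θ ^ 2 := by positivity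
    constructor <;> linarith [k6.1, k6.2, k7.1, k7.2]
  have hbase' : |σ * (‖p₀ + z‖ ^ 2 + ‖p₀ - z‖ ^ 2 - 2 * ‖p₀‖ ^ 2 - 2 * ‖z‖ ^ 2)| ≤ ε / 2 := by
    rw [abs_mul, hσ, one_mul]
    exact hbase
  have hz2 : ε₁ * ‖z‖ ^ 2 ≤ ε / 4 := by
    refine le_trans ?_ hε₁B
    gcongr
  have hd1 := (abs_le.mp hd).1
  have hb1 := (abs_le.mp hbase').2
  linarith

end Pool.Agent.Helper53.BM
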