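import Pool.Agent.Helper53.BM.Good
import Pool.Agent.Helper53.BM.Forms

set_option autoImplicit false

open Filter Topology

namespace Pool.Agent.Helper53.BM

universe u

section
variable {E : Type*} [NormedAddCommGroup E] [NormedSpace ℝ E]

/-- First limit: a form dominated (or minorised) by the squared norm. -/
lemma first_limit (g : E →L[ℝ] E →L[ℝ] ℝ) (hg : ∀ x y, g x y = g y x) (σ : ℝ)
    (hgood : ∀ (Z : Finset E) (ε : ℝ), 0 < ε →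
      ∃ U : E ≃ₗᵢ[ℝ] E, ∀ z ∈ Z, σ * g (U z) (U z) ≤ σ * ‖z‖ ^ 2 + ε) :
    ∃ (𝒰 : Ultrafilter (Finset E × ℕ)) (V : Finset E × ℕ → E ≃ₗᵢ[ℝ] E) (h : E →L[ℝ] E →L[ℝ] ℝ),
      (∀ x y, Tendsto (fun i => g (V i x) (V i y)) 𝒰 (𝓝 (h x y))) ∧
      (∀ x y, h x y = h y x) ∧ ∀ z, σ * h z z ≤ σ * ‖z‖ ^ 2 := by
  classical
  choose V hV using fun i : Finset E × ℕ => hgood i.1 (1 / ((i.2 : ℝ) + 1)) (by positivity)
  set 𝒰 : Ultrafilter (Finset E × ℕ) := Ultrafilter.of atTop with h𝒰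
  have hle : (𝒰 : Filter (Finset E × ℕ)) ≤ atTop := Ultrafilter.of_le atTop
  obtain ⟨h, hh⟩ := exists_limit_form 𝒰 V g
  refine ⟨𝒰, V, h, hh, fun x y => ?_, fun z => ?_⟩
  · refine tendsto_nhds_unique (hh x y) ((hh y x).congr fun i => hg _ _)
  · have h1 : ∀ᶠ i : Finset E × ℕ in 𝒰, σ * g (V i z) (V i z) ≤
        σ * ‖z‖ ^ 2 + 1 / ((i.2 : ℝ) + 1) := by
      have h2 : ∀ᶠ i : Finset E × ℕ in atTop, ({z}, 0) ≤ i := eventually_ge_atTop _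
      filter_upwards [hle h2] with i hi
      exact hV i z (hi.1 (Finset.mem_singleton_self z))
    have h3 : Tendsto (fun i : Finset E × ℕ => σ * ‖z‖ ^ 2 + 1 / ((i.2 : ℝ) + 1)) 𝒰
        (𝓝 (σ * ‖z‖ ^ 2 + 0)) := by
      refine tendsto_const_nhds.add ?_
      have h4 : Tendsto (fun i : Finset E × ℕ => i.2) atTop atTop := by
        rw [← prod_atTop_atTop_eq]
        exact tendsto_snd
      exact (tendsto_one_div_add_atTop_nhds_zero_nat.comp h4).mono_left hle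
    rw [add_zero] at h3
    exact le_of_tendsto_of_tendsto ((hh z z).const_mul σ) h3 h1

/-- Second limit: after pushing, the asymptotic comparison becomes a global one. -/
lemma final_form (hinf : ¬ FiniteDimensional ℝ E)
    (htrans : ∀ x y : E, ‖x‖ = 1 → ‖y‖ = 1 → ∀ ε : ℝ, 0 < ε → ∃ T : E ≃ₗᵢ[ℝ] E, ‖T x - y‖ < ε)
    (hbid : ∀ (ζ : StrongDual ℝ (StrongDual ℝ E)) (σ : ℝ), 0 < σ →
      ∃ y₀ : E, ∀ φ : StrongDual ℝ E, |ζ φ - φ y₀| ≤ σ * ‖φ‖)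
    (g : E →L[ℝ] E →L[ℝ] ℝ) (hg : ∀ x y, g x y = g y x) (σ : ℝ)
    (hgood : ∀ (Z : Finset E) (ε : ℝ), 0 < ε →
      ∃ U : E ≃ₗᵢ[ℝ] E, ∀ z ∈ Z, σ * g (U z) (U z) ≤ σ * ‖z‖ ^ 2 + ε)
    {α β : ℝ} (hess : ∀ ε : ℝ, 0 < ε → ∃ (n : ℕ) (ξ : Fin n → StrongDual ℝ E) (η : ℝ), 0 < η ∧
      ∀ w : E, ‖w‖ ≤ 1 → (∀ j, |ξ j w| ≤ η) → α * ‖w‖ ^ 2 ≤ β * g w w + ε) :
    ∃ h : E →L[ℝ] E →L[ℝ] ℝ, (∀ x y, h x y = h y x) ∧ (∀ z, σ * h z z ≤ σ * ‖z‖ ^ 2) ∧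
      ∀ z, α * ‖z‖ ^ 2 ≤ β * h z z := by
  classical
  obtain ⟨𝒰, V, h₁, hh₁, hs₁, hle₁⟩ := first_limit g hg σ hgood
  choose T hT using fun i : (Finset E × Finset (StrongDual ℝ E)) × ℕ =>
    push_finset hinf htrans hbid i.1.1 i.1.2 (η := 1 / ((i.2 : ℝ) + 1)) (by positivity)
  set 𝒱 : Ultrafilter ((Finset E × Finset (StrongDual ℝ E)) × ℕ) := Ultrafilter.of atTop with h𝒱
  have hle : (𝒱 : Filter ((Finset E × Finset (StrongDual ℝ E)) × ℕ)) ≤ atTop :=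
    Ultrafilter.of_le atTop
  obtain ⟨h, hh⟩ := exists_limit_form 𝒱 T h₁
  have hpush : ∀ (z : E) (ξ : StrongDual ℝ E) (η : ℝ), 0 < η →
      ∀ᶠ i in (𝒱 : Filter ((Finset E × Finset (StrongDual ℝ E)) × ℕ)), |ξ (T i z)| < η := by
    intro z ξ η hη
    obtain ⟨m, hm⟩ := exists_nat_one_div_lt hη
    have h2 : ∀ᶠ i : (Finset E × Finset (StrongDual ℝ E)) × ℕ in atTop, (({z}, {ξ}), m) ≤ i :=
      eventually_ge_atTop _
    filter_upwards [hle h2] with i hi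
    have h3 := hT i z (hi.1.1 (Finset.mem_singleton_self z)) ξ
      (hi.1.2 (Finset.mem_singleton_self ξ))
    have h4 : 1 / ((i.2 : ℝ) + 1) ≤ 1 / ((m : ℝ) + 1) := by
      have : (m : ℝ) ≤ i.2 := by exact_mod_cast hi.2
      gcongr
    exact h3.trans_lt (h4.trans_lt hm)
  -- the comparison on the unit ball
  have hball : ∀ z : E, ‖z‖ ≤ 1 → α * ‖z‖ ^ 2 ≤ β * h z z := by
    intro z hz
    refine le_of_forall_pos_le_add fun ε hε => ?_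
    obtain ⟨n, ξ, η, hη, hξ⟩ := hess ε hε
    choose ξ' hξ' using fun j => exists_limit_functional 𝒰 V (ξ j)
    have h1 : ∀ᶠ i in (𝒱 : Filter ((Finset E × Finset (StrongDual ℝ E)) × ℕ)),
        ∀ j, |ξ' j (T i z)| < η := by
      rw [eventually_all]
      exact fun j => hpush z (ξ' j) η hη
    have h2 : ∀ᶠ i in (𝒱 : Filter ((Finset E × Finset (StrongDual ℝ E)) × ℕ)),
        α * ‖z‖ ^ 2 ≤ β * h₁ (T i z) (T i z) + ε := by
      filter_upwards [h1] with i hi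
      have h3 : ∀ᶠ k in (𝒰 : Filter (Finset E × ℕ)), ∀ j, |ξ j (V k (T i z))| < η := by
        rw [eventually_all]
        intro j
        exact ((hξ' j (T i z)).abs).eventually (gt_mem_nhds (hi j))
      have h4 : ∀ᶠ k in (𝒰 : Filter (Finset E × ℕ)),
          α * ‖z‖ ^ 2 ≤ β * g (V k (T i z)) (V k (T i z)) + ε := by
        filter_upwards [h3] with k hk
        have h5 := hξ (V k (T i z)) (by
          rw [LinearIsometryEquiv.norm_map, LinearIsometryEquiv.norm_map]; exact hz)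
          (fun j => (hk j).le)
        rwa [LinearIsometryEquiv.norm_map, LinearIsometryEquiv.norm_map] at h5
      exact ge_of_tendsto (((hh₁ (T i z) (T i z)).const_mul β).add_const ε) h4
    exact ge_of_tendsto (((hh z z).const_mul β).add_const ε) h2
  refine ⟨h, fun x y => ?_, fun z => ?_, fun z => ?_⟩
  · refine tendsto_nhds_unique (hh x y) ((hh y x).congr fun i => hs₁ _ _)
  · refine le_of_tendsto ((hh z z).const_mul σ) (Eventually.of_forall fun i => ?_)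
    have := hle₁ (T i z)
    rwa [LinearIsometryEquiv.norm_map] at this
  · rcases eq_or_ne z 0 with hz | hz
    · subst hz
      simp
    · have hzn : 0 < ‖z‖ := norm_pos_iff.mpr hz
      have h1 := hball (‖z‖⁻¹ • z) (by
        rw [norm_smul, norm_inv, norm_norm, inv_mul_cancel₀ hzn.ne'])
      rw [norm_smul, norm_inv, norm_norm, inv_mul_cancel₀ hzn.ne'] at h1
      simp only [map_smul, smul_apply, smul_eq_mul, one_pow, mul_one] at h1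
      have h2 : ‖z‖ ^ 2 * α ≤ ‖z‖ ^ 2 * (β * (‖z‖⁻¹ * (‖z‖⁻¹ * h z z))) := by gcongr
      have h3 : ‖z‖ ^ 2 * (β * (‖z‖⁻¹ * (‖z‖⁻¹ * h z z))) = β * h z z := by
        field_simp
      rw [h3] at h2
      linarith

/-- From finite codimensional subspaces to weak neighbourhoods. -/
lemma weak_nbhd (g : E →L[ℝ] E →L[ℝ] ℝ) {α β : ℝ}
    (H : ∀ ε : ℝ, 0 < ε → ∃ Z : Submodule ℝ E, IsClosed (Z : Set E) ∧
      FiniteDimensional ℝ (E ⧸ Z) ∧ ∀ w ∈ Z, α * ‖w‖ ^ 2 ≤ β * g w w + ε * ‖w‖ ^ 2) :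
    ∀ ε : ℝ, 0 < ε → ∃ (n : ℕ) (ξ : Fin n → StrongDual ℝ E) (η : ℝ), 0 < η ∧
      ∀ w : E, ‖w‖ ≤ 1 → (∀ j, |ξ j w| ≤ η) → α * ‖w‖ ^ 2 ≤ β * g w w + ε := by
  intro ε hε
  obtain ⟨Z, hZ, hfin, hZ'⟩ := H (ε / 8) (by positivity)
  obtain ⟨n, ξ, a, hP, -, -⟩ := exists_functionals Z hZ hfin
  set A : ℝ := 1 + ∑ j, ‖a j‖ with hA
  have hA0 : 0 < A := by
    have : 0 ≤ ∑ j, ‖a j‖ := Finset.sum_nonneg fun _ _ => norm_nonneg _
    linarith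
  set ρ : ℝ := min 1 (ε / (6 * (|α| + |β| * ‖g‖ + 1))) with hρ
  have hρ0 : 0 < ρ := lt_min one_pos (by positivity)
  have hρ1 : ρ ≤ 1 := min_le_left _ _
  have hρ2 : 3 * ρ * (|α| + |β| * ‖g‖) ≤ ε / 2 := by
    have h1 : ρ ≤ ε / (6 * (|α| + |β| * ‖g‖ + 1)) := min_le_right _ _
    rw [le_div_iff₀ (by positivity)] at h1
    nlinarith
  refine ⟨n, ξ, ρ / A, by positivity, fun w hw hξ => ?_⟩
  set r : E := ∑ j, ξ j w • a j with hr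
  have hrn : ‖r‖ ≤ ρ := by
    calc ‖∑ j, ξ j w • a j‖ ≤ ∑ j, ρ / A * ‖a j‖ := by
          refine (norm_sum_le _ _).trans (Finset.sum_le_sum fun j _ => ?_)
          rw [norm_smul, Real.norm_eq_abs]
          gcongr
          exact hξ j
      _ = ρ / A * ∑ j, ‖a j‖ := by rw [Finset.mul_sum]
      _ ≤ ρ / A * A := by gcongr; rw [hA]; linarith
      _ = ρ := by field_simp
  have h1 := hZ' _ (hP w)
  rw [← hr] at h1
  have hw' : ‖w - r‖ ≤ 2 := by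
    calc ‖w - r‖ ≤ ‖w‖ + ‖r‖ := norm_sub_le _ _
      _ ≤ 2 := by linarith
  have h2 : |‖w‖ ^ 2 - ‖w - r‖ ^ 2| ≤ 3 * ρ := by
    have h3 : |‖w‖ - ‖w - r‖| ≤ ρ := by
      have h4 := abs_norm_sub_norm_le w (w - r)
      rw [sub_sub_cancel] at h4
      exact h4.trans hrn
    have h5 : ‖w‖ ^ 2 - ‖w - r‖ ^ 2 = (‖w‖ - ‖w - r‖) * (‖w‖ + ‖w - r‖) := by ring
    rw [h5, abs_mul, abs_of_nonneg (by positivity : 0 ≤ ‖w‖ + ‖w - r‖)]
    calc |‖w‖ - ‖w - r‖| * (‖w‖ + ‖w - r‖) ≤ ρ * (1 + 2) := by gcongr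
      _ = 3 * ρ := by ring
  have hgg : ∀ a b : E, |g a b| ≤ ‖g‖ * ‖a‖ * ‖b‖ := fun a b => by simpa using g.le_opNorm₂ a b
  have h6 : |g (w - r) (w - r) - g w w| ≤ 3 * ρ * ‖g‖ := by
    have e : g (w - r) (w - r) - g w w = -(g w r) - g r w + g r r := by
      simp only [map_sub, sub_apply]
      ring
    rw [e]
    have k1 : |g w r| ≤ ‖g‖ * 1 * ρ := (hgg w r).trans (by gcongr)
    have k2 : |g r w| ≤ ‖g‖ * ρ * 1 := (hgg r w).trans (by gcongr)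
    have k3 : |g r r| ≤ ‖g‖ * 1 * ρ := (hgg r r).trans (by gcongr; exact hrn.trans hρ1)
    have k4 := abs_add_le (-(g w r) - g r w) (g r r)
    have k5 := abs_sub (-(g w r)) (g r w)
    rw [abs_neg] at k5
    linarith
  have h7 : α * ‖w‖ ^ 2 - α * ‖w - r‖ ^ 2 ≤ |α| * (3 * ρ) := by
    calc α * ‖w‖ ^ 2 - α * ‖w - r‖ ^ 2 ≤ |α * (‖w‖ ^ 2 - ‖w - r‖ ^ 2)| := by
          rw [mul_sub]; exact le_abs_self _
      _ ≤ |α| * (3 * ρ) := by rw [abs_mul]; gcongr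
  have h8 : β * g (w - r) (w - r) - β * g w w ≤ |β| * (3 * ρ * ‖g‖) := by
    calc β * g (w - r) (w - r) - β * g w w ≤ |β * (g (w - r) (w - r) - g w w)| := by
          rw [mul_sub]; exact le_abs_self _
      _ ≤ |β| * (3 * ρ * ‖g‖) := by rw [abs_mul]; gcongr
  have h9 : ε / 8 * ‖w - r‖ ^ 2 ≤ ε / 8 * 2 ^ 2 := by gcongr
  linarith

/-- A lower bound of the form on a subspace of finite codimension gives a global one up to a finite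
rank term. -/
lemma rough_lower (g : E →L[ℝ] E →L[ℝ] ℝ) {K : ℝ} (hK : 0 < K)
    (Z : Submodule ℝ E) (hZ : IsClosed (Z : Set E)) (hfin : FiniteDimensional ℝ (E ⧸ Z))
    (hZ' : ∀ w ∈ Z, ‖w‖ ^ 2 ≤ K * g w w) :
    ∃ (n : ℕ) (ξ : Fin n → StrongDual ℝ E) (C : ℝ), 0 ≤ C ∧
      ∀ w : E, ‖w‖ ^ 2 ≤ 4 * K * g w w + C * ∑ j, ξ j w ^ 2 := by
  obtain ⟨n, ξ, a, hP, -, -⟩ := exists_functionals Z hZ hfin
  set D : ℝ := 2 * (8 * K ^ 2 * ‖g‖ ^ 2 + 2 * K * ‖g‖ + 2) with hD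
  refine ⟨n, ξ, D * ∑ j, ‖a j‖ ^ 2, by positivity, fun w => ?_⟩
  set r : E := ∑ j, ξ j w • a j with hr
  have hrn : ‖r‖ ^ 2 ≤ (∑ j, ξ j w ^ 2) * ∑ j, ‖a j‖ ^ 2 := by
    have h1 : ‖r‖ ≤ ∑ j, |ξ j w| * ‖a j‖ := by
      refine (norm_sum_le _ _).trans (Finset.sum_le_sum fun j _ => ?_)
      rw [norm_smul, Real.norm_eq_abs]
    calc ‖r‖ ^ 2 ≤ (∑ j, |ξ j w| * ‖a j‖) ^ 2 := by gcongr
      _ ≤ (∑ j, |ξ j w| ^ 2) * ∑ j, ‖a j‖ ^ 2 := Finset.sum_mul_sq_le_sq_mul_sq _ _ _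
      _ = _ := by simp only [sq_abs]
  have h1 := hZ' _ (hP w)
  rw [← hr] at h1
  have h2 : ‖w‖ ^ 2 ≤ 2 * ‖w - r‖ ^ 2 + 2 * ‖r‖ ^ 2 := by
    have h3 : ‖w‖ ≤ ‖w - r‖ + ‖r‖ := by
      have := norm_add_le (w - r) r
      rwa [sub_add_cancel] at this
    have h4 : ‖w‖ ^ 2 ≤ (‖w - r‖ + ‖r‖) ^ 2 := by gcongr
    nlinarith [sq_nonneg (‖w - r‖ - ‖r‖)]
  have hgg : ∀ a b : E, |g a b| ≤ ‖g‖ * ‖a‖ * ‖b‖ := fun a b => by simpa using g.le_opNorm₂ a b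
  have h6 : g (w - r) (w - r) ≤ g w w + 2 * ‖g‖ * ‖w‖ * ‖r‖ + ‖g‖ * ‖r‖ ^ 2 := by
    have e : g (w - r) (w - r) = g w w - g w r - g r w + g r r := by
      simp only [map_sub, sub_apply]
      ring
    rw [e]
    have k1 := (neg_abs_le (g w r))
    have k2 := (neg_abs_le (g r w))
    have k3 := (le_abs_self (g r r))
    have k4 := hgg w r
    have k5 := hgg r w
    have k6 := hgg r r
    nlinarith
  have h7 : 4 * K * ‖g‖ * ‖w‖ * ‖r‖ ≤ 1 / 2 * ‖w‖ ^ 2 + 8 * K ^ 2 * ‖g‖ ^ 2 * ‖r‖ ^ 2 := by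
    nlinarith [sq_nonneg (‖w‖ - 4 * K * ‖g‖ * ‖r‖)]
  have h8 : K * g (w - r) (w - r) ≤ K * (g w w + 2 * ‖g‖ * ‖w‖ * ‖r‖ + ‖g‖ * ‖r‖ ^ 2) := by
    gcongr
  have h9 : ‖w‖ ^ 2 ≤ 4 * K * g w w + D * ‖r‖ ^ 2 := by
    rw [hD]
    nlinarith
  have h10 : D * ‖r‖ ^ 2 ≤ D * ((∑ j, ξ j w ^ 2) * ∑ j, ‖a j‖ ^ 2) := by gcongr
  linarith

end

end Pool.Agent.Helper53.BM
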