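import Pool.Agent.Helper53.BM.Reflexive

set_option autoImplicit false

open Filter Topology

namespace Pool.Agent.Helper53.BM

variable {E : Type*} [NormedAddCommGroup E] [NormedSpace ℝ E]

/-- In an infinite dimensional space finitely many functionals have common zeros of any norm. -/
lemma exists_ker_vector (hinf : ¬ FiniteDimensional ℝ E) (Φ : Finset (StrongDual ℝ E)) {r : ℝ}
    (hr : 0 ≤ r) : ∃ v : E, ‖v‖ = r ∧ ∀ φ ∈ Φ, φ v = 0 := by
  classical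
  set L : E →ₗ[ℝ] (Φ → ℝ) := LinearMap.pi fun φ => ((φ : StrongDual ℝ E) : E →ₗ[ℝ] ℝ) with hL
  have hker : L.ker ≠ ⊥ := by
    intro h
    exact hinf (FiniteDimensional.of_injective L (LinearMap.ker_eq_bot.mp h))
  obtain ⟨v, hv, hv0⟩ := Submodule.exists_mem_ne_zero_of_ne_bot hker
  have hvn : 0 < ‖v‖ := norm_pos_iff.mpr hv0
  refine ⟨(r / ‖v‖) • v, ?_, fun φ hφ => ?_⟩
  · rw [norm_smul, Real.norm_eq_abs, abs_of_nonneg (by positivity)]
    field_simp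
  · have h1 : L v = 0 := hv
    have h2 : L v ⟨φ, hφ⟩ = 0 := by rw [h1]; rfl
    have h3 : φ v = 0 := h2
    rw [map_smul, h3, smul_zero]

/-- Almost transitivity for vectors of equal norm. -/
lemma almost_transitive
    (htrans : ∀ x y : E, ‖x‖ = 1 → ‖y‖ = 1 → ∀ ε : ℝ, 0 < ε → ∃ T : E ≃ₗᵢ[ℝ] E, ‖T x - y‖ < ε)
    (x y : E) (h : ‖x‖ = ‖y‖) {ε : ℝ} (hε : 0 < ε) : ∃ T : E ≃ₗᵢ[ℝ] E, ‖T x - y‖ < ε := by
  rcases eq_or_ne x 0 with hx | hx
  · subst hx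
    have hy : y = 0 := by
      rw [norm_zero] at h
      exact norm_eq_zero.mp h.symm
    exact ⟨LinearIsometryEquiv.refl ℝ E, by simpa [hy] using hε⟩
  · have hxn : 0 < ‖x‖ := norm_pos_iff.mpr hx
    obtain ⟨T, hT⟩ := htrans (‖x‖⁻¹ • x) (‖x‖⁻¹ • y)
      (by rw [norm_smul, norm_inv, norm_norm, inv_mul_cancel₀ hxn.ne'])
      (by rw [norm_smul, norm_inv, norm_norm, h, inv_mul_cancel₀ (by rw [← h]; exact hxn.ne')])
      (ε / ‖x‖) (by positivity)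
    refine ⟨T, ?_⟩
    rw [map_smul, ← smul_sub, norm_smul, norm_inv, norm_norm, lt_div_iff₀ hxn] at hT
    calc ‖T x - y‖ = ‖x‖⁻¹ * ‖T x - y‖ * ‖x‖ := by field_simp
      _ < ε := hT

/-- **Pushing lemma.** If every element of the bidual is approximable, isometries push any two
vectors close to a given subspace of finite codimension. -/
lemma push (hinf : ¬ FiniteDimensional ℝ E)
    (htrans : ∀ x y : E, ‖x‖ = 1 → ‖y‖ = 1 → ∀ ε : ℝ, 0 < ε → ∃ T : E ≃ₗᵢ[ℝ] E, ‖T x - y‖ < ε)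
    (hbid : ∀ (ζ : StrongDual ℝ (StrongDual ℝ E)) (σ : ℝ), 0 < σ →
      ∃ y₀ : E, ∀ φ : StrongDual ℝ E, |ζ φ - φ y₀| ≤ σ * ‖φ‖)
    (x y : E) {n : ℕ} (ξ : Fin n → StrongDual ℝ E) {η : ℝ} (hη : 0 < η) :
    ∃ T : E ≃ₗᵢ[ℝ] E, (∀ j, |ξ j (T x)| ≤ η) ∧ (∀ j, |ξ j (T y)| ≤ η) := by
  classical
  -- a common bound for the functionals
  set K : ℝ := 1 + ∑ j, ‖ξ j‖ with hK
  have hK0 : 0 < K := by
    have : 0 ≤ ∑ j, ‖ξ j‖ := Finset.sum_nonneg fun _ _ => norm_nonneg _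
    linarith
  have hKj : ∀ j, ‖ξ j‖ ≤ K := by
    intro j
    have : ‖ξ j‖ ≤ ∑ j, ‖ξ j‖ := Finset.single_le_sum (fun _ _ => norm_nonneg _) (Finset.mem_univ j)
    linarith
  set δ : ℝ := η / (4 * K) with hδ
  have hδ0 : 0 < δ := by positivity
  -- isometries pushing `x` into small subspaces
  have hT : ∀ Φ : Finset (StrongDual ℝ E), ∃ T : E ≃ₗᵢ[ℝ] E, ∀ φ ∈ Φ, |φ (T x)| ≤ δ * ‖φ‖ := by
    intro Φ
    obtain ⟨v, hv, hvΦ⟩ := exists_ker_vector hinf Φ (norm_nonneg x)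
    obtain ⟨T, hT⟩ := almost_transitive htrans x v hv.symm hδ0
    refine ⟨T, fun φ hφ => ?_⟩
    have h1 : φ (T x) = φ (T x - v) := by rw [map_sub, hvΦ φ hφ, sub_zero]
    rw [h1]
    calc |φ (T x - v)| ≤ ‖φ‖ * ‖T x - v‖ := by simpa using φ.le_opNorm (T x - v)
      _ ≤ ‖φ‖ * δ := by gcongr
      _ = δ * ‖φ‖ := mul_comm _ _
  choose T hTx using hT
  set 𝒰 : Ultrafilter (Finset (StrongDual ℝ E)) := Ultrafilter.of atTop with h𝒰
  have h𝒰le : (𝒰 : Filter (Finset (StrongDual ℝ E))) ≤ atTop := Ultrafilter.of_le atTop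
  -- the limit in the bidual
  set J : Finset (StrongDual ℝ E) → WeakDual ℝ (StrongDual ℝ E) := fun Φ =>
    StrongDual.toWeakDual (NormedSpace.inclusionInDoubleDual ℝ E (T Φ y)) with hJ
  have hcomp := WeakDual.isCompact_closedBall (𝕜 := ℝ) (E := StrongDual ℝ E) 0 ‖y‖
  have hmem : ∀ Φ, J Φ ∈ WeakDual.toStrongDual ⁻¹' Metric.closedBall 0 ‖y‖ := by
    intro Φ
    have h1 := NormedSpace.double_dual_bound ℝ E (T Φ y)
    rw [LinearIsometryEquiv.norm_map] at h1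
    exact (mem_closedBall_zero_iff (E := StrongDual ℝ (StrongDual ℝ E))).mpr h1
  obtain ⟨z, hz, hz'⟩ := hcomp.ultrafilter_le_nhds (𝒰.map J) (by
    rw [Ultrafilter.coe_map, le_principal_iff, Filter.mem_map]
    exact Filter.univ_mem' hmem)
  have hlim : ∀ φ : StrongDual ℝ E, Tendsto (fun Φ => φ (T Φ y)) 𝒰 (𝓝 (WeakDual.toStrongDual z φ)) := by
    intro φ
    have h1 : Tendsto J 𝒰 (𝓝 z) := hz'
    have h2 := (WeakDual.eval_continuous (𝕜 := ℝ) φ).tendsto z |>.comp h1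
    exact h2
  obtain ⟨y₀, hy₀⟩ := hbid (WeakDual.toStrongDual z) δ hδ0
  -- push the limit point
  obtain ⟨v, hv, hvξ⟩ := exists_ker_vector hinf (Finset.univ.image ξ) (norm_nonneg y₀)
  obtain ⟨R, hR⟩ := almost_transitive htrans y₀ v hv.symm hδ0
  set ρ : Fin n → StrongDual ℝ E := fun j => (ξ j).comp (R.toContinuousLinearEquiv : E →L[ℝ] E)
    with hρ
  have hρapp : ∀ j w, ρ j w = ξ j (R w) := fun j w => rfl
  have hρn : ∀ j, ‖ρ j‖ ≤ ‖ξ j‖ := by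
    intro j
    refine ContinuousLinearMap.opNorm_le_bound _ (norm_nonneg _) fun w => ?_
    rw [hρapp]
    refine ((ξ j).le_opNorm _).trans ?_
    rw [R.norm_map]
  have hζ : ∀ j, |WeakDual.toStrongDual z (ρ j)| ≤ η / 2 := by
    intro j
    have h1 := hy₀ (ρ j)
    have h2 : |ρ j y₀| ≤ ‖ξ j‖ * δ := by
      rw [hρapp]
      have h3 : ξ j (R y₀) = ξ j (R y₀ - v) := by
        rw [map_sub, hvξ (ξ j) (Finset.mem_image_of_mem _ (Finset.mem_univ j)), sub_zero]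
      rw [h3]
      calc |ξ j (R y₀ - v)| ≤ ‖ξ j‖ * ‖R y₀ - v‖ := by simpa using (ξ j).le_opNorm (R y₀ - v)
        _ ≤ ‖ξ j‖ * δ := by gcongr
    have h4 : |WeakDual.toStrongDual z (ρ j)| ≤
        |WeakDual.toStrongDual z (ρ j) - ρ j y₀| + |ρ j y₀| := by
      have := abs_add_le (WeakDual.toStrongDual z (ρ j) - ρ j y₀) (ρ j y₀)
      simpa using this
    have h5 : δ * K = η / 4 := by rw [hδ]; field_simp
    have h6 : δ * ‖ρ j‖ ≤ δ * K := by gcongr; exact (hρn j).trans (hKj j)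
    have h7 : ‖ξ j‖ * δ ≤ K * δ := by gcongr; exact hKj j
    linarith
  have hev1 : ∀ᶠ Φ in (𝒰 : Filter (Finset (StrongDual ℝ E))), ∀ j, |ρ j (T Φ y)| ≤ η := by
    rw [eventually_all]
    intro j
    have h1 : Tendsto (fun Φ => |ρ j (T Φ y)|) 𝒰 (𝓝 |WeakDual.toStrongDual z (ρ j)|) :=
      (hlim (ρ j)).abs
    have h2 : |WeakDual.toStrongDual z (ρ j)| < η := lt_of_le_of_lt (hζ j) (by linarith)
    filter_upwards [h1.eventually (gt_mem_nhds h2)] with Φ hΦ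
    exact hΦ.le
  have hev2 : ∀ᶠ Φ in (𝒰 : Filter (Finset (StrongDual ℝ E))), Finset.univ.image ρ ⊆ Φ :=
    h𝒰le (eventually_ge_atTop (Finset.univ.image ρ))
  obtain ⟨Φ, hΦ1, hΦ2⟩ := (hev1.and hev2).exists
  refine ⟨(T Φ).trans R, fun j => ?_, fun j => hΦ1 j⟩
  have h1 := hTx Φ (ρ j) (hΦ2 (Finset.mem_image_of_mem _ (Finset.mem_univ j)))
  have h5 : δ * K = η / 4 := by rw [hδ]; field_simp
  have h6 : δ * ‖ρ j‖ ≤ δ * K := by gcongr; exact (hρn j).trans (hKj j)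
  calc |ξ j ((T Φ).trans R x)| = |ρ j (T Φ x)| := rfl
    _ ≤ δ * ‖ρ j‖ := h1
    _ ≤ η := by linarith

end Pool.Agent.Helper53.BM
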