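import Pool.Agent.Helper53.BM.Control

set_option autoImplicit false

open Filter Topology

namespace Pool.Agent.Helper53.BM

variable {E : Type*} [NormedAddCommGroup E] [NormedSpace ℝ E]

/-- **Pushing lemma for finite sets.** If every element of the bidual is approximable, isometries
push any finite set of vectors weakly close to zero. -/
lemma push_finset (hinf : ¬ FiniteDimensional ℝ E)
    (htrans : ∀ x y : E, ‖x‖ = 1 → ‖y‖ = 1 → ∀ ε : ℝ, 0 < ε → ∃ T : E ≃ₗᵢ[ℝ] E, ‖T x - y‖ < ε)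
    (hbid : ∀ (ζ : StrongDual ℝ (StrongDual ℝ E)) (σ : ℝ), 0 < σ →
      ∃ y₀ : E, ∀ φ : StrongDual ℝ E, |ζ φ - φ y₀| ≤ σ * ‖φ‖)
    (Z : Finset E) : ∀ (Ξ : Finset (StrongDual ℝ E)) {η : ℝ}, 0 < η →
    ∃ T : E ≃ₗᵢ[ℝ] E, ∀ z ∈ Z, ∀ ξ ∈ Ξ, |ξ (T z)| ≤ η := by
  classical
  induction Z using Finset.induction_on with
  | empty => exact fun Ξ η hη => ⟨LinearIsometryEquiv.refl ℝ E, by simp⟩
  | insert y Z _ ih =>
    intro Ξ η hη
    -- a common bound for the functionals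
    set K : ℝ := 1 + ∑ ξ ∈ Ξ, ‖ξ‖ with hK
    have hK0 : 0 < K := by
      have : 0 ≤ ∑ ξ ∈ Ξ, ‖ξ‖ := Finset.sum_nonneg fun _ _ => norm_nonneg _
      linarith
    have hKj : ∀ ξ ∈ Ξ, ‖ξ‖ ≤ K := by
      intro ξ hξ
      have : ‖ξ‖ ≤ ∑ ξ ∈ Ξ, ‖ξ‖ :=
        Finset.single_le_sum (f := fun ξ : StrongDual ℝ E => ‖ξ‖) (fun _ _ => norm_nonneg _) hξ
      linarith
    set δ : ℝ := η / (4 * K) with hδ
    have hδ0 : 0 < δ := by positivity
    choose T hTx using fun Φ : Finset (StrongDual ℝ E) => ih Φ hη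
    set 𝒰 : Ultrafilter (Finset (StrongDual ℝ E)) := Ultrafilter.of atTop with h𝒰
    have h𝒰le : (𝒰 : Filter (Finset (StrongDual ℝ E))) ≤ atTop := Ultrafilter.of_le atTop
    -- the limit in the bidual
    set J : Finset (StrongDual ℝ E) → WeakDual ℝ (StrongDual ℝ E) := fun Φ =>
      StrongDual.toWeakDual (NormedSpace.inclusionInDoubleDual ℝ E (T Φ y)) with hJ
    have hcomp := WeakDual.isCompact_closedBall (𝕜 := ℝ) (E := StrongDual ℝ E) 0 ‖y‖
    have hmem : ∀ Φ, J Φ ∈ WeakDual.toStrongDual ⁻¹' Metric.closedBall 0 ‖y‖ := by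
      intro Φ
      have h1 := NormedSpace.double_dual_bound ℝ E (T Φ y)
      rw [LinearIsometryEquiv.norm_map] at h1
      exact (mem_closedBall_zero_iff (E := StrongDual ℝ (StrongDual ℝ E))).mpr h1
    obtain ⟨z, hz, hz'⟩ := hcomp.ultrafilter_le_nhds (𝒰.map J) (by
      rw [Ultrafilter.coe_map, le_principal_iff, Filter.mem_map]
      exact Filter.univ_mem' hmem)
    have hlim : ∀ φ : StrongDual ℝ E,
        Tendsto (fun Φ => φ (T Φ y)) 𝒰 (𝓝 (WeakDual.toStrongDual z φ)) := by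
      intro φ
      have h1 : Tendsto J 𝒰 (𝓝 z) := hz'
      have h2 := (WeakDual.eval_continuous (𝕜 := ℝ) φ).tendsto z |>.comp h1
      exact h2
    obtain ⟨y₀, hy₀⟩ := hbid (WeakDual.toStrongDual z) δ hδ0
    -- push the limit point
    obtain ⟨v, hv, hvξ⟩ := exists_ker_vector hinf Ξ (norm_nonneg y₀)
    obtain ⟨R, hR⟩ := almost_transitive htrans y₀ v hv.symm hδ0
    have hρn : ∀ ξ, ‖pull R ξ‖ ≤ ‖ξ‖ := by
      intro ξ
      refine ContinuousLinearMap.opNorm_le_bound _ (norm_nonneg _) fun w => ?_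
      rw [pull_apply]
      refine (ξ.le_opNorm _).trans ?_
      rw [R.norm_map]
    have hζ : ∀ ξ ∈ Ξ, |WeakDual.toStrongDual z (pull R ξ)| ≤ η / 2 := by
      intro ξ hξ
      have h1 := hy₀ (pull R ξ)
      have h2 : |pull R ξ y₀| ≤ ‖ξ‖ * δ := by
        rw [pull_apply]
        have h3 : ξ (R y₀) = ξ (R y₀ - v) := by
          rw [map_sub, hvξ ξ hξ, sub_zero]
        rw [h3]
        calc |ξ (R y₀ - v)| ≤ ‖ξ‖ * ‖R y₀ - v‖ := by simpa using ξ.le_opNorm (R y₀ - v)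
          _ ≤ ‖ξ‖ * δ := by gcongr
      have h4 : |WeakDual.toStrongDual z (pull R ξ)| ≤
          |WeakDual.toStrongDual z (pull R ξ) - pull R ξ y₀| + |pull R ξ y₀| := by
        have := abs_add_le (WeakDual.toStrongDual z (pull R ξ) - pull R ξ y₀) (pull R ξ y₀)
        simpa using this
      have h5 : δ * K = η / 4 := by rw [hδ]; field_simp
      have h6 : δ * ‖pull R ξ‖ ≤ δ * K := by gcongr; exact (hρn ξ).trans (hKj ξ hξ)
      have h7 : ‖ξ‖ * δ ≤ K * δ := by gcongr; exact hKj ξ hξ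
      linarith
    have hev1 : ∀ᶠ Φ in (𝒰 : Filter (Finset (StrongDual ℝ E))), ∀ ξ ∈ Ξ,
        |pull R ξ (T Φ y)| ≤ η := by
      rw [Filter.eventually_all_finset]
      intro ξ hξ
      have h1 : Tendsto (fun Φ => |pull R ξ (T Φ y)|) 𝒰
          (𝓝 |WeakDual.toStrongDual z (pull R ξ)|) := (hlim (pull R ξ)).abs
      have h2 : |WeakDual.toStrongDual z (pull R ξ)| < η := lt_of_le_of_lt (hζ ξ hξ) (by linarith)
      filter_upwards [h1.eventually (gt_mem_nhds h2)] with Φ hΦ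
      exact hΦ.le
    have hev2 : ∀ᶠ Φ in (𝒰 : Filter (Finset (StrongDual ℝ E))), Ξ.image (pull R) ⊆ Φ :=
      h𝒰le (eventually_ge_atTop (Ξ.image (pull R)))
    obtain ⟨Φ, hΦ1, hΦ2⟩ := (hev1.and hev2).exists
    refine ⟨(T Φ).trans R, fun w hw ξ hξ => ?_⟩
    rcases Finset.mem_insert.mp hw with rfl | hw
    · exact hΦ1 ξ hξ
    · exact hTx Φ w hw (pull R ξ) (hΦ2 (Finset.mem_image_of_mem _ hξ))

end Pool.Agent.Helper53.BM
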