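import Mathlib

set_option autoImplicit false

open Filter Topology

namespace Pool.Agent.Helper53.BM

variable {E : Type*} [NormedAddCommGroup E] [NormedSpace ℝ E]

/-- A Helly type lemma: finitely many functionals cannot separate an element of the bidual from the
ball of the same radius. -/
lemma helly {ι : Type*} [Fintype ι] (ζ : StrongDual ℝ (StrongDual ℝ E))
    (φ : ι → StrongDual ℝ E) {δ : ℝ} (hδ : 0 < δ) :
    ∃ z : E, ‖z‖ ≤ ‖ζ‖ ∧ ∀ i, |φ i z - ζ (φ i)| ≤ δ := by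
  classical
  by_contra hcon
  push Not at hcon
  set L : E →ₗ[ℝ] (ι → ℝ) := LinearMap.pi fun i => (φ i : E →ₗ[ℝ] ℝ) with hL
  set C : Set (ι → ℝ) := L '' Metric.closedBall (0 : E) ‖ζ‖ with hC
  have hconv : Convex ℝ C := (convex_closedBall (0 : E) ‖ζ‖).linear_image L
  set t : ι → ℝ := fun i => ζ (φ i) with ht
  have htC : t ∉ closure C := by
    intro hmem
    rw [Metric.mem_closure_iff] at hmem
    obtain ⟨b, ⟨z, hz, rfl⟩, hb⟩ := hmem δ hδ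
    obtain ⟨i, hi⟩ := hcon z (by simpa using hz)
    have h1 : dist (t i) (L z i) ≤ dist t (L z) := dist_le_pi_dist t (L z) i
    have h2 : dist (t i) (L z i) = |φ i z - ζ (φ i)| := by
      rw [Real.dist_eq, abs_sub_comm]
      simp [hL, ht]
    rw [h2] at h1
    linarith
  obtain ⟨f, u, hf1, hf2⟩ := geometric_hahn_banach_closed_point hconv.closure isClosed_closure htC
  set c : ι → ℝ := fun i => f (Pi.single i 1) with hc
  have hfv : ∀ v : ι → ℝ, f v = ∑ i, v i * c i := by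
    intro v
    have : v = ∑ i, v i • (Pi.single i (1 : ℝ) : ι → ℝ) := by
      funext j
      simp [Finset.sum_apply, Pi.single_apply]
    conv_lhs => rw [this]
    rw [map_sum]
    simp [hc]
  set χ : StrongDual ℝ E := ∑ i, c i • φ i with hχ
  have hχz : ∀ z, χ z = f (L z) := by
    intro z
    rw [hfv]
    simp [hχ, hL, mul_comm]
  have hζχ : ζ χ = f t := by
    rw [hfv]
    simp [hχ, ht, mul_comm]
  have hlt : ∀ z : E, ‖z‖ ≤ ‖ζ‖ → χ z < u := by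
    intro z hz
    rw [hχz]
    exact hf1 _ (subset_closure ⟨z, by simpa using hz, rfl⟩)
  have hu : 0 < u := by
    have := hlt 0 (by rw [norm_zero]; exact norm_nonneg ζ)
    simpa using this
  have hnorm : ‖ζ‖ * ‖χ‖ ≤ u := by
    rcases eq_or_lt_of_le (norm_nonneg ζ) with h0 | h0
    · rw [← h0]; simpa using hu.le
    · have : ‖χ‖ ≤ u / ‖ζ‖ := by
        refine ContinuousLinearMap.opNorm_le_bound _ (by positivity) ?_
        intro x
        rcases eq_or_ne x 0 with hx | hx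
        · simp [hx]
        · have hxn : 0 < ‖x‖ := norm_pos_iff.mpr hx
          have key : ∀ s : ℝ, |s| = 1 → s * χ x ≤ u / ‖ζ‖ * ‖x‖ := by
            intro s hs
            have h1 := hlt ((s * (‖ζ‖ / ‖x‖)) • x) (by
              rw [norm_smul, Real.norm_eq_abs, abs_mul, hs, one_mul, abs_of_nonneg (by positivity)]
              rw [div_mul_cancel₀ _ hxn.ne'])
            rw [map_smul, smul_eq_mul] at h1
            have h2 : s * (‖ζ‖ / ‖x‖) * χ x = (s * χ x) * (‖ζ‖ / ‖x‖) := by ring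
            rw [h2] at h1
            have h3 : s * χ x < u / (‖ζ‖ / ‖x‖) := by
              rw [lt_div_iff₀ (by positivity)]
              exact h1
            have h4 : u / (‖ζ‖ / ‖x‖) = u / ‖ζ‖ * ‖x‖ := by
              field_simp
            linarith
          rw [Real.norm_eq_abs]
          rcases le_or_gt 0 (χ x) with h | h
          · rw [abs_of_nonneg h]; simpa using key 1 (by simp)
          · rw [abs_of_neg h]; simpa using key (-1) (by simp)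
      rw [le_div_iff₀ h0] at this
      linarith
  have h5 : ζ χ ≤ ‖ζ‖ * ‖χ‖ := (le_abs_self _).trans (by simpa using ζ.le_opNorm χ)
  rw [hζχ] at h5
  linarith

/-- If the parallelogram law holds up to a small error, elements of the bidual are close to the
space. -/
lemma approx_reflexive {ε : ℝ} (hε : 0 ≤ ε)
    (hpar : ∀ x y : E, ‖x + y‖ ^ 2 + ‖x - y‖ ^ 2 ≤ (2 + ε) * (‖x‖ ^ 2 + ‖y‖ ^ 2))
    (ζ : StrongDual ℝ (StrongDual ℝ E)) {σ : ℝ} (hσ : 0 < σ) (hs : 2 * ε * ‖ζ‖ ^ 2 < σ ^ 2) :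
    ∃ z₀ : E, ∀ ψ : StrongDual ℝ E, |ζ ψ - ψ z₀| ≤ σ * ‖ψ‖ := by
  rcases eq_or_lt_of_le (norm_nonneg ζ) with h0 | hr
  · have : ζ = 0 := (norm_eq_zero (E := StrongDual ℝ (StrongDual ℝ E))).mp h0.symm
    subst this
    exact ⟨0, fun ψ => by simp; positivity⟩
  set r : ℝ := ‖ζ‖ with hrdef
  set s : ℝ := Real.sqrt (2 * ε * r ^ 2) with hsdef
  have hs0 : 0 ≤ s := Real.sqrt_nonneg _
  have hs2 : s ^ 2 = 2 * ε * r ^ 2 := Real.sq_sqrt (by positivity)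
  have hsσ : s < σ := by
    have : s ^ 2 < σ ^ 2 := by rw [hs2]; exact hs
    exact lt_of_pow_lt_pow_left₀ 2 hσ.le this
  set τ : ℝ := (σ + s) / 2 with hτ
  have hτs : s < τ := by rw [hτ]; linarith
  have hτσ : τ < σ := by rw [hτ]; linarith
  have hτ0 : 0 < τ := by linarith
  have hq : 0 < τ ^ 2 - s ^ 2 := by nlinarith
  obtain ⟨δ, hδ0, hδr, hδσ, hδq⟩ : ∃ δ : ℝ, 0 < δ ∧ δ ≤ r / 2 ∧ δ ≤ σ - τ ∧
      δ ≤ (τ ^ 2 - s ^ 2) / (16 * r) := by
    refine ⟨min (r / 2) (min (σ - τ) ((τ ^ 2 - s ^ 2) / (16 * r))), ?_, ?_, ?_, ?_⟩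
    · refine lt_min (by linarith) (lt_min (by linarith) (by positivity))
    · exact min_le_left _ _
    · exact (min_le_right _ _).trans (min_le_left _ _)
    · exact (min_le_right _ _).trans (min_le_right _ _)
  have hδq' : 16 * r * δ ≤ τ ^ 2 - s ^ 2 := by
    rw [le_div_iff₀ (by positivity)] at hδq
    linarith
  -- a nearly norming functional
  obtain ⟨ξ, hξ1, hξ2⟩ : ∃ ξ : StrongDual ℝ E, ‖ξ‖ ≤ 1 ∧ r - δ ≤ ζ ξ := by
    obtain ⟨x, hx1, hx2⟩ := ContinuousLinearMap.exists_lt_apply_of_lt_opNorm ζ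
      (show r - δ < ‖ζ‖ by rw [← hrdef]; linarith)
    rw [Real.norm_eq_abs] at hx2
    rcases le_or_gt 0 (ζ x) with h | h
    · rw [abs_of_nonneg h] at hx2
      exact ⟨x, hx1.le, hx2.le⟩
    · rw [abs_of_neg h] at hx2
      exact ⟨-x, by simpa using hx1.le, by simpa using hx2.le⟩
  obtain ⟨z₀, hz₀, hz₀'⟩ := helly ζ (fun _ : Fin 1 => ξ) hδ0
  refine ⟨z₀, fun ψ => ?_⟩
  rcases eq_or_ne ψ 0 with hψ | hψ
  · simp [hψ]
  have hψn : 0 < ‖ψ‖ := norm_pos_iff.mpr hψ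
  obtain ⟨z₁, hz₁, hz₁'⟩ := helly ζ ![ξ, ψ] (δ := min δ (δ * ‖ψ‖)) (lt_min hδ0 (by positivity))
  have e0 := hz₀' 0
  have e1 := hz₁' 0
  have e2 := hz₁' 1
  simp only [Matrix.cons_val_zero, Matrix.cons_val_one] at e1 e2
  have e1' : |ξ z₁ - ζ ξ| ≤ δ := e1.trans (min_le_left _ _)
  have e2' : |ψ z₁ - ζ ψ| ≤ δ * ‖ψ‖ := e2.trans (min_le_right _ _)
  have hsum : 2 * r - 4 * δ ≤ ‖z₀ + z₁‖ := by
    have h1 : ξ (z₀ + z₁) ≤ ‖ξ‖ * ‖z₀ + z₁‖ :=
      (le_abs_self _).trans (by simpa using ξ.le_opNorm (z₀ + z₁))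
    have h2 : ‖ξ‖ * ‖z₀ + z₁‖ ≤ ‖z₀ + z₁‖ := by
      nlinarith [norm_nonneg (z₀ + z₁)]
    have h3 : ξ (z₀ + z₁) = ξ z₀ + ξ z₁ := map_add _ _ _
    have h4 := (abs_le.mp e0).1
    have h5 := (abs_le.mp e1').1
    linarith
  have hpos : 0 ≤ 2 * r - 4 * δ := by linarith
  have hdiff : ‖z₀ - z₁‖ ^ 2 ≤ τ ^ 2 := by
    have h1 := hpar z₀ z₁
    have h2 : ‖z₀‖ ^ 2 ≤ r ^ 2 := by gcongr
    have h3 : ‖z₁‖ ^ 2 ≤ r ^ 2 := by gcongr
    have h4 : (2 * r - 4 * δ) ^ 2 ≤ ‖z₀ + z₁‖ ^ 2 := by gcongr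
    have h5 : (2 + ε) * (‖z₀‖ ^ 2 + ‖z₁‖ ^ 2) ≤ (2 + ε) * (r ^ 2 + r ^ 2) := by gcongr
    nlinarith [hδ0.le, hr.le, mul_pos hδ0 hδ0]
  have hdiff' : ‖z₀ - z₁‖ ≤ τ := by
    exact le_of_sq_le_sq hdiff hτ0.le |> fun h => h
  calc |ζ ψ - ψ z₀| = |(ζ ψ - ψ z₁) + ψ (z₁ - z₀)| := by rw [map_sub]; ring_nf
    _ ≤ |ζ ψ - ψ z₁| + |ψ (z₁ - z₀)| := abs_add_le _ _
    _ ≤ δ * ‖ψ‖ + ‖ψ‖ * ‖z₁ - z₀‖ := by
        refine add_le_add (by rw [abs_sub_comm]; exact e2') ?_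
        simpa using ψ.le_opNorm (z₁ - z₀)
    _ ≤ δ * ‖ψ‖ + ‖ψ‖ * τ := by
        gcongr
        rw [norm_sub_rev]; exact hdiff'
    _ ≤ σ * ‖ψ‖ := by nlinarith


/-- A closed subspace of finite codimension is the common kernel of finitely many functionals which
admit a dual system of vectors. -/
lemma exists_functionals (Z : Submodule ℝ E) (hZ : IsClosed (Z : Set E))
    (hfin : FiniteDimensional ℝ (E ⧸ Z)) :
    ∃ (n : ℕ) (ξ : Fin n → StrongDual ℝ E) (a : Fin n → E),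
      (∀ w, w - ∑ j, ξ j w • a j ∈ Z) ∧ (∀ w ∈ Z, ∀ j, ξ j w = 0) ∧
      (∀ i j, ξ i (a j) = if i = j then 1 else 0) := by
  have := hZ
  have := hfin
  set b := Module.finBasis ℝ (E ⧸ Z) with hb
  have hsurj : Function.Surjective Z.mkQ := Z.mkQ_surjective
  choose a ha using fun j => hsurj (b j)
  refine ⟨_, fun j => (LinearMap.toContinuousLinearMap (b.coord j)).comp Z.mkQL, a, ?_, ?_, ?_⟩
  · intro w
    rw [← Submodule.Quotient.mk_eq_zero, ← Submodule.mkQ_apply, map_sub, map_sum]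
    simp only [map_smul, ha]
    rw [sub_eq_zero]
    conv_lhs => rw [← b.sum_repr (Z.mkQ w)]
    rfl
  · intro w hw j
    have : Z.mkQ w = 0 := by simpa using hw
    change b.coord j (Z.mkQ w) = 0
    rw [this, map_zero]
  · intro i j
    change b.coord i (Z.mkQ (a j)) = _
    rw [ha, Module.Basis.coord_apply, Module.Basis.repr_self, Finsupp.single_apply]
    simp [eq_comm]

/-- Norm preserving extension along a linear isometry. -/
lemma exists_extension_isometry {F : Type*} [NormedAddCommGroup F] [NormedSpace ℝ F]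
    (i : F →ₗᵢ[ℝ] E) (ψ : StrongDual ℝ F) :
    ∃ g : StrongDual ℝ E, (∀ x, g (i x) = ψ x) ∧ ‖g‖ ≤ ‖ψ‖ := by
  set e := i.equivRange with he
  obtain ⟨g, hg1, hg2⟩ := exists_extension_norm_eq (𝕜 := ℝ) (LinearMap.range i.toLinearMap)
    (ψ.comp (e.symm.toContinuousLinearEquiv : _ →L[ℝ] F))
  refine ⟨g, fun x => ?_, ?_⟩
  · have := hg1 (e x)
    simpa [he] using this
  · rw [hg2]
    refine ContinuousLinearMap.opNorm_le_bound _ (norm_nonneg _) fun x => ?_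
    refine (ψ.le_opNorm _).trans ?_
    gcongr
    exact le_of_eq (e.symm.norm_map x)

/-- Core of the reflexivity argument, on a subspace of finite codimension. -/
lemma core_close {F : Type*} [NormedAddCommGroup F] [NormedSpace ℝ F] (i : F →ₗᵢ[ℝ] E)
    (P : E →L[ℝ] F) {n : ℕ} (ξ : Fin n → StrongDual ℝ E) (a : Fin n → E)
    (hP : ∀ w, i (P w) = w - ∑ j, ξ j w • a j)
    {ε : ℝ} (hε : 0 ≤ ε)
    (hpar : ∀ x y : F, ‖x + y‖ ^ 2 + ‖x - y‖ ^ 2 ≤ (2 + ε) * (‖x‖ ^ 2 + ‖y‖ ^ 2))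
    (ζ : StrongDual ℝ (StrongDual ℝ E)) (hζ : ∀ j, ζ (ξ j) = 0) {R : ℝ} (hR0 : 0 < R)
    (hR : ‖ζ‖ ≤ R) {σ : ℝ} (hσ : 0 < σ) (hs : 2 * ε * R ^ 2 < σ ^ 2) :
    ∃ z₀ : F, ∀ φ : StrongDual ℝ E, |ζ φ - φ (i z₀)| ≤ σ * ‖φ‖ := by
  have hcomp : ∀ g : StrongDual ℝ E,
      (g.comp i.toContinuousLinearMap).comp P = g - ∑ j, g (a j) • ξ j := by
    intro g
    ext w
    simp [hP, map_sub, map_sum, mul_comm]
  have hζg : ∀ g : StrongDual ℝ E, ζ ((g.comp i.toContinuousLinearMap).comp P) = ζ g := by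
    intro g
    rw [hcomp, map_sub, map_sum]
    simp [hζ]
  set ζF : StrongDual ℝ (StrongDual ℝ F) :=
    ζ.comp ((ContinuousLinearMap.compL ℝ E F ℝ).flip P) with hζF
  have hζFapp : ∀ ψ : StrongDual ℝ F, ζF ψ = ζ (ψ.comp P) := fun ψ => rfl
  have hζFn : ‖ζF‖ ≤ R := by
    refine ContinuousLinearMap.opNorm_le_bound _ hR0.le fun ψ => ?_
    obtain ⟨g, hg1, hg2⟩ := exists_extension_isometry i ψ
    have hgψ : g.comp i.toContinuousLinearMap = ψ := by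
      ext x
      exact hg1 x
    rw [hζFapp, ← hgψ, hζg]
    calc ‖ζ g‖ ≤ ‖ζ‖ * ‖g‖ := ζ.le_opNorm g
      _ ≤ R * ‖g.comp i.toContinuousLinearMap‖ := by
          rw [hgψ]
          gcongr
  obtain ⟨z₀, hz₀⟩ := approx_reflexive hε hpar ζF hσ (by
      have h1 : ‖ζF‖ ^ 2 ≤ R ^ 2 := by gcongr
      calc 2 * ε * ‖ζF‖ ^ 2 ≤ 2 * ε * R ^ 2 := by gcongr
        _ < σ ^ 2 := hs)
  refine ⟨z₀, fun φ => ?_⟩
  have h1 := hz₀ (φ.comp i.toContinuousLinearMap)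
  rw [hζFapp, hζg] at h1
  have h3 : (φ.comp i.toContinuousLinearMap) z₀ = φ (i z₀) := rfl
  rw [h3] at h1
  have h4 : ‖φ.comp i.toContinuousLinearMap‖ ≤ ‖φ‖ := by
    refine ContinuousLinearMap.opNorm_le_bound _ (norm_nonneg _) fun x => ?_
    refine (φ.le_opNorm _).trans ?_
    gcongr
    exact le_of_eq (i.norm_map x)
  exact h1.trans (by gcongr)

/-- The asymptotic parallelogram law implies that every element of the bidual is a limit of
elements of the space. -/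
lemma bidual_close
    (H : ∀ ε : ℝ, 0 < ε → ∃ Z : Submodule ℝ E, IsClosed (Z : Set E) ∧
      FiniteDimensional ℝ (E ⧸ Z) ∧ ∀ x ∈ Z, ∀ y ∈ Z,
        ‖x + y‖ ^ 2 + ‖x - y‖ ^ 2 ≤ (2 + ε) * (‖x‖ ^ 2 + ‖y‖ ^ 2))
    (ζ : StrongDual ℝ (StrongDual ℝ E)) {σ : ℝ} (hσ : 0 < σ) :
    ∃ y₀ : E, ∀ φ : StrongDual ℝ E, |ζ φ - φ y₀| ≤ σ * ‖φ‖ := by
  set R : ℝ := 2 * ‖ζ‖ + 1 with hR
  have hR0 : 0 < R := by
    have : (0 : ℝ) ≤ ‖ζ‖ := norm_nonneg ζ
    linarith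
  obtain ⟨Z, hZ, hfin, hpar⟩ := H (σ ^ 2 / (4 * R ^ 2)) (by positivity)
  obtain ⟨n, ξ, a, hP, hker, hdual⟩ := exists_functionals Z hZ hfin
  set A : ℝ := ∑ j, ‖a j‖ with hA
  have hA0 : 0 ≤ A := Finset.sum_nonneg fun _ _ => norm_nonneg _
  obtain ⟨y₁, hy₁, hy₁'⟩ := helly ζ ξ (δ := 1 / (1 + A)) (by positivity)
  set y₂ : E := y₁ + ∑ j, (ζ (ξ j) - ξ j y₁) • a j with hy₂
  have hy₂n : ‖y₂‖ ≤ ‖ζ‖ + 1 := by
    calc ‖y₂‖ ≤ ‖y₁‖ + ‖∑ j, (ζ (ξ j) - ξ j y₁) • a j‖ := norm_add_le _ _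
      _ ≤ ‖ζ‖ + ∑ j, 1 / (1 + A) * ‖a j‖ := by
          refine add_le_add hy₁ ((norm_sum_le _ _).trans (Finset.sum_le_sum fun j _ => ?_))
          rw [norm_smul, Real.norm_eq_abs, abs_sub_comm]
          gcongr
          exact hy₁' j
      _ = ‖ζ‖ + 1 / (1 + A) * A := by rw [← Finset.mul_sum]
      _ ≤ ‖ζ‖ + 1 := by
          have : 1 / (1 + A) * A ≤ 1 := by
            rw [one_div, inv_mul_le_iff₀ (by positivity)]
            linarith
          linarith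
  have hξy₂ : ∀ i, ξ i y₂ = ζ (ξ i) := by
    intro i
    rw [hy₂, map_add, map_sum]
    simp [hdual]
  set ζ' : StrongDual ℝ (StrongDual ℝ E) := ζ - NormedSpace.inclusionInDoubleDual ℝ E y₂ with hζ'
  have hζ'n : ‖ζ'‖ ≤ R := by
    have h1 : ‖ζ'‖ ≤ ‖ζ‖ + ‖NormedSpace.inclusionInDoubleDual ℝ E y₂‖ := by
      rw [hζ']
      exact norm_sub_le (E := StrongDual ℝ (StrongDual ℝ E)) _ _
    have h2 : ‖NormedSpace.inclusionInDoubleDual ℝ E y₂‖ ≤ ‖y₂‖ :=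
      NormedSpace.double_dual_bound ℝ E y₂
    rw [hR]; linarith
  have hζ'ξ : ∀ j, ζ' (ξ j) = 0 := by
    intro j
    simp [hζ', NormedSpace.dual_def, hξy₂]
  obtain ⟨z₀, hz₀⟩ := core_close (F := Z) Z.subtypeₗᵢ
    (ContinuousLinearMap.codRestrict
      (ContinuousLinearMap.id ℝ E - ∑ j, (ξ j).smulRight (a j)) Z (by
        intro w
        simpa using hP w)) ξ a (by intro w; simp)
    (ε := σ ^ 2 / (4 * R ^ 2)) (by positivity) (by
      intro x y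
      have h2 := hpar x x.2 y y.2
      simpa using h2) ζ' hζ'ξ hR0 hζ'n hσ (by
      calc 2 * (σ ^ 2 / (4 * R ^ 2)) * R ^ 2 = σ ^ 2 / 2 := by field_simp; ring
        _ < σ ^ 2 := by have : 0 < σ ^ 2 := by positivity
                        linarith)
  refine ⟨y₂ + z₀, fun φ => ?_⟩
  have h1 := hz₀ φ
  have h2 : ζ' φ = ζ φ - φ y₂ := by simp [hζ', NormedSpace.dual_def]
  rw [h2] at h1
  calc |ζ φ - φ (y₂ + z₀)| = |ζ φ - φ y₂ - φ (Z.subtypeₗᵢ z₀)| := by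
        rw [map_add]
        congr 1
        simp
        ring
    _ ≤ σ * ‖φ‖ := h1

end Pool.Agent.Helper53.BM
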